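import Pool.Agent.Q7.LK.Stm
import Pool.Agent.W289.SL.Defs

/-!
# Project LK (helper7), part 2: relations at some of the places above `p`, and the `Σ`-Leopoldt conjecture for
characters of order `p`

`I` is an ideal of `𝓞 F` containing `p`; the relations are those at the places dividing `I`.  At the places above `p` which
do not divide `I` there is no condition, the local classes are those of all units of relative norm `1` (`AU`): the
local norms, of index `p` in `F_v^*` (nondegeneracy of the Hilbert symbol).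
-/

set_option autoImplicit false

namespace Pool.Agent.Q7.LK

open NumberField IsDedekindDomain Filter Topology Finset
open Pool.Agent.Q283.LQ (Sm Box Nest nS)
open Pool.Agent.W289.SL

section F

variable {F : Type} [Field F] [NumberField F]

/-- the properties of the Hilbert symbols in `S_HS2` -/
structure Hilb (p : ℕ) (ζ : F) (t : HeightOneSpectrum (𝓞 F) → F → F → ZMod p) : Prop where
  anti : ∀ v a c, a ≠ 0 → c ≠ 0 → t v a c = - t v c a
  mul : ∀ v a b c, a ≠ 0 → b ≠ 0 → c ≠ 0 → t v (a * b) c = t v a c + t v b c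
  sum : ∀ a c, a ≠ 0 → c ≠ 0 → {v | t v a c ≠ 0}.Finite ∧ ∑ᶠ v, t v a c = 0
  pow : ∀ v a c, Lpw p v a → c ≠ 0 → t v a c = 0
  unr : ∀ v, ¬ Dp p v → ∀ c, c ≠ 0 → vl p v c = 0 → ∀ a, a ≠ 0 → t v a c = vl p v a * sy p ζ v c
  nrm : ∀ c, c ≠ 0 → ∀ (M : Type) [Field M] [NumberField M] [Algebra F M], Kum p F M c → ∀ y : M, y ≠ 0 →
    ∀ v, t v (Algebra.norm F y) c = 0

/-- a nonzero relation at the places dividing `I` between the units of `L` of relative norm `1` (the conclusion of `S_CR1A`) -/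
def Out1 (p : ℕ) [Fact p.Prime] (F L : Type) [Field F] [NumberField F] [Field L] [NumberField L] [Algebra F L]
    (I : Ideal (𝓞 F)) : Prop :=
  ∃ (n : ℕ) (θ : Fin n → (𝓞 L)ˣ) (h : ℕ), 0 < h ∧
    (∀ i, Algebra.norm F (((θ i : (𝓞 L)ˣ) : 𝓞 L) : L) = 1) ∧
    (∀ c : Fin n → ℤ, ∏ i, θ i ^ c i = 1 → c = 0) ∧
    (∀ η : (𝓞 L)ˣ, Algebra.norm F ((η : 𝓞 L) : L) = 1 → ∃ c : Fin n → ℤ, η ^ h = (∏ i, θ i ^ c i) ^ h) ∧
    ∃ a : Fin n → ℤ_[p], a ≠ 0 ∧ Rel p L (I.map (algebraMap (𝓞 F) (𝓞 L))) θ a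

end F

/-- JOB NDG (uses `S_BAS`, `S_BAS1`, `S_CHEB`). The Hilbert symbol is nondegenerate.
Proof.  Let `y` be large (`S_BAS1`), with `Sm y v`; `S` = the primes with `Sm y`, `B(a, b) = ∑_(w ∈ S) t w a b`, an alternating pairing on `F^*`
(`S` is finite: `S_BAS1` contains no statement of finiteness, but `S` is the set of the prime divisors of `∏_(l ≤ y) l`; or use sums over the
finite support of `t`).  Let `D' ∈ F^*` be close to `D` at `v` and to `1` at the other `w ∈ S` (approximation): `Lpw v (D' / D)`, `Lpw w D'`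
(`S_BAS` (6)); then `B(a, D') = 0` for all `a` (`t w a D' = - t w D' a = 0` for `w ≠ v`, `t v a D' = t v a D = 0`).
By `Bas1.cls` `Nn p y (D' * mon r φ * mon u c)` for some `φ`, `c`, so `B(a, mon r φ) + B(a, mon u c) = 0` for all `a ≠ 0`.
`a = u m`: `B(u m, u l) = - ∑_(w ∉ S) t w (u m) (u l) = 0` (`Hilb.unr`, `vl w (u m) = 0` as `w(u m) = 1`).  `B(u m, r l)`: choose by `S_CHEB` a prime `q ∉ S` with
`sy q (u l') = δ_(l l')` (infinitely many primes have these symbols); by `Bas1.pcl` `Nn p y (P q * r l * mon u c')` for some `c'`, so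
`B(u m, r l) = - B(u m, P q) = ∑_(w ∉ S) t w (u m) (P q) = - ∑_(w ∉ S) t w (P q) (u m) = - sy q (u m)` (`vl q (P q) = 1`), which is `- δ_(l m)`.
So `φ = 0`.  `a = r m`: `0 = B(r m, mon u c) = - B(mon u c, r m) = c_m`.  So `Nn p y D'` (`S_BAS`: products and inverses, `mon r 0 = 1`), `Lpw v D'`,
`Lpw v D`. -/
def S_NDG : Prop := ∀ (p : ℕ) [Fact p.Prime], p ≠ 2 → ∀ (F : Type) [Field F] [NumberField F] (ζ : F),
  IsPrimitiveRoot ζ p → ∀ t : HeightOneSpectrum (𝓞 F) → F → F → ZMod p, Hilb p ζ t →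
  ∀ (v : HeightOneSpectrum (𝓞 F)) (D : F), D ≠ 0 → (∀ a, a ≠ 0 → t v a D = 0) → Lpw p v D

/-- JOB NRM (uses `S_BAS`). Local norms.
Proof.  `D` is not a `p`-th power in `F` (`S_BAS` (3)), so `X^p - D` is irreducible over `F` (`X_pow_sub_C_irreducible_iff_of_prime`) and
`M = AdjoinRoot (X^p - D)` over `F` is a number field with `Kum p F M D`.  `s = ∑ s_i ρ^i`, `s_i ∈ K = v.adicCompletion F`; choose `y_i ∈ F` close to `s_i`
(`F` is dense in `K`), `y = ∑ y_i ρ^i ∈ M`.  The norm of `∑ x_i ρ^i` is in both cases the same polynomial in the `x_i` with coefficients in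
`F` (determinant of the matrix of the multiplication, with respect to the basis `1, ρ, .., ρ^(p-1)`), so `N(y) → N(s) = a ≠ 0` and
`v(N(y) / a - 1)` is as small as we want; `Lpw v (a / N(y))` by `S_BAS` (6); `t v a D = t v (N y) D = 0`. -/
def S_NRM : Prop := ∀ (p : ℕ) [Fact p.Prime], p ≠ 2 → ∀ (F : Type) [Field F] [NumberField F] (ζ : F),
  IsPrimitiveRoot ζ p → ∀ t : HeightOneSpectrum (𝓞 F) → F → F → ZMod p, Hilb p ζ t →
  ∀ (v : HeightOneSpectrum (𝓞 F)) (D : F), D ≠ 0 → ¬ Lpw p v D → ∀ a : F, a ≠ 0 →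
  (∃ s : AdjoinRoot (Polynomial.X ^ p - Polynomial.C (D : v.adicCompletion F)),
      Algebra.norm (v.adicCompletion F) s = (a : v.adicCompletion F)) → t v a D = 0

/-- JOB AUN (uses `S_BAS`, `S_LOCV`, `S_HS2`, `S_NDG`, `S_NRM`). The number of the classes `AU`.
Proof.  `D` not a local `p`-th power: `t` from `S_HS2`; `t v b D = 0` for `b ∈ B` (`S_NRM`), `t v a0 D ≠ 0` for some `a0 ≠ 0` (`S_NDG`); the `p * #B` elements
`b a0^i`, `0 ≤ i < p`, are pairwise inequivalent (`t v (b a0^i / (b' a0^i')) D = (i - i') t v a0 D`), so `p * #B ≤ p^(2 + dv)` by `S_LOCV`.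
`D` a local `p`-th power: the same with an element `a0` with `vl v a0 = 1` and `vl v` instead of `t v · D`. -/
def S_AUN : Prop := ∀ (p : ℕ) [Fact p.Prime], p ≠ 2 → ∀ (F : Type) [Field F] [NumberField F] (ζ : F),
  IsPrimitiveRoot ζ p → ∀ (v : HeightOneSpectrum (𝓞 F)) (D : F), D ≠ 0 → ∀ B : Finset F, (∀ b ∈ B, AU p v D b) →
    (∀ b ∈ B, ∀ b' ∈ B, b ≠ b' → ¬ Lpw p v (b / b')) → B.card ≤ p ^ (dv p v + 1)

/-- JOB AUC (uses `S_BAS`, `S_CPL`). Formal properties of `AU`.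
Proof.  (1) `b = s^p = N(s)` in the completion (`S_CPL`).  (2) `n = s^p`; `AdjoinRoot (X^p - D) ≅ AdjoinRoot (X^p - D n)`, `ρ ↦ ρ / s`; `Lpw v (D n)` iff
`Lpw v D`.  (3) `N(ρ) = D` (`p` odd), if `D` is not a local `p`-th power (`X^p - D` is then irreducible, see `Algebra.norm_eq_...`, or the determinant
of the companion matrix); otherwise `vl v D = 0`.  (4) clear. -/
def S_AUC : Prop := ∀ (p : ℕ) [Fact p.Prime], p ≠ 2 → ∀ (F : Type) [Field F] [NumberField F]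
  (v : HeightOneSpectrum (𝓞 F)) (D : F), D ≠ 0 →
  (∀ a b, AU p v D a → Lpw p v b → AU p v D (a * b)) ∧
  (∀ n a, Lpw p v n → AU p v D a → AU p v (D * n) a) ∧
  (∀ a, AU p v D a → AU p v D (a * D)) ∧
  ∀ a, AU p v D a → ∀ n : ℕ, AU p v D (a ^ n)

/-- JOB CR1B (uses `S_LA`). A unit of relative norm `1` from a relation (second half of `S_CR1`, same proof: see its docstring). -/
def S_CR1B : Prop := ∀ (p : ℕ) [Fact p.Prime], p ≠ 2 → ∀ (F L : Type) [Field F] [NumberField F] [Field L]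
  [NumberField L] [Algebra F L] (ζ d : F), IsPrimitiveRoot ζ p → Kum p F L d → ¬ IsPow p d →
  ∀ I : Ideal (𝓞 F), (p : 𝓞 F) ∈ I → Out1 p F L I → ∀ σ : L ≃ₐ[F] L, σ ≠ 1 →
  ∃ w : (𝓞 L)ˣ, Algebra.norm F ((w : 𝓞 L) : L) = 1 ∧
    (∀ (η : (𝓞 L)ˣ) (j : ℕ), Algebra.norm F ((η : 𝓞 L) : L) = 1 →
      ((w : 𝓞 L) : L) * ((η : 𝓞 L) : L) ≠ (algebraMap F L ζ) ^ j * σ ((η : 𝓞 L) : L)) ∧
    ∃ M : ℕ, ∀ N : ℕ, ∃ η : (𝓞 L)ˣ, Algebra.norm F ((η : 𝓞 L) : L) = 1 ∧
      (((w * η ^ p) ^ p ^ M : (𝓞 L)ˣ) : 𝓞 L) - 1 ∈ I.map (algebraMap (𝓞 F) (𝓞 L)) ^ N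

/-- JOB CR2U (uses `S_BAS`, `S_CPL`). The classes at the places without condition.
Proof.  `d` not a local `p`-th power: `L = ⊕ F ρ^i`, `ρ^p = d`; map `y = ∑ y_i ρ^i` to `∑ y_i ρ^i` in `AdjoinRoot (X^p - d)` over the completion `K`; the norm is the same
(matrix of the multiplication; or base change of the norm).  `d` a local `p`-th power: there is an `F`-embedding `τ_0 : L → K` (`ρ ↦` a `p`-th root of
`d`), `τ_i = τ_0 σ^i`, `N(y) = ∏_(i<p) τ_i(y)`; `τ_i(w)` is a unit of the valuation ring (`w` and `w⁻¹` are integral over `ℤ`), so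
`|τ_(i+1)(y)| = |τ_i(w)| |τ_i(y)| = |τ_i(y)|` and `v(N y) = p v(τ_0(y))`. -/
def S_CR2U : Prop := ∀ (p : ℕ) [Fact p.Prime], p ≠ 2 → ∀ (F L : Type) [Field F] [NumberField F] [Field L]
  [NumberField L] [Algebra F L] (ζ d : F), IsPrimitiveRoot ζ p → Kum p F L d → ¬ IsPow p d →
  ∀ σ : L ≃ₐ[F] L, σ ≠ 1 → ∀ v : HeightOneSpectrum (𝓞 F), ∀ w : (𝓞 L)ˣ,
  ∀ y : L, y ≠ 0 → ((w : 𝓞 L) : L) * y = σ y → AU p v d (Algebra.norm F y)

/-- JOB CR2I (uses `S_CR1B`, `S_CR2LA`, `S_CR2LB`, `S_CR2T`, `S_CR2U`). The class of the unit, for arbitrary `I` (same proof as `S_CR2`, see its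
docstring). -/
def S_CR2I : Prop := ∀ (p : ℕ) [Fact p.Prime], p ≠ 2 → ∀ (F L : Type) [Field F] [NumberField F] [Field L]
  [NumberField L] [Algebra F L] (ζ d : F), IsPrimitiveRoot ζ p → Kum p F L d → ¬ IsPow p d →
  ∀ I : Ideal (𝓞 F), (p : 𝓞 F) ∈ I → Out1 p F L I → Bad p (AI p I) d

/-- JOB SGA. From the kernel of the logarithms at the embeddings above `I` to a relation between units of relative norm `1`.
Proof.  Template (`p = 2`, several independent elements): `Pool/Agent/Q1/LK/SgA.lean` (`t_SgA`), `SA.lean`, `Sg0.lean` (helper1).  Choose `τ` with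
`χ τ ≠ 1`; `x - τ x = (1 - χ τ) x` is a combination of the units `u / τ u` of relative norm `1`, so of the basis `θ` of the group of these
units modulo torsion; the conditions at the embeddings over `I` are linear equations over `ℚ_p`, so there is a nonzero solution in
`(ℤ_p)^n`. -/
def S_SGA : Prop := ∀ (p : ℕ) [Fact p.Prime], p ≠ 2 → ∀ (K H : Type) [Field K] [NumberField K] [Field H]
  [NumberField H] [Algebra K H], IsGalois K H → ∀ I : Ideal (𝓞 K), (p : 𝓞 K) ∈ I →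
  ∀ S : Set (K →+* ℂ_[p]), (∀ s : K →+* ℂ_[p], s ∈ S ↔ ∀ a ∈ I, ‖s (a : K)‖ < 1) →
  ∀ (L : ℂ_[p] → ℂ_[p]) (hL : IsIwasawaLog p L) (χ : (H ≃ₐ[K] H) →* ℂ_[p]ˣ), χ ≠ 1 →
  ∀ x : UM p H, x ≠ 0 →
  (∀ τ : H ≃ₐ[K] H, actLin p (τ : H →+* H) x = ((χ τ : ℂ_[p]ˣ) : ℂ_[p]) • x) →
  (∀ s : H →+* ℂ_[p], s.comp (algebraMap K H) ∈ S → logLin hL s x = 0) →
  Out1 p K H I

end Pool.Agent.Q7.LK
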