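import Pool.Agent.Q7.LK.Def

/-!
# Project LK (helper7): statements of the parts

GOAL (`S_MAIN`).  `p` an odd prime, `F` any number field containing a primitive `p`-th root of unity `ζ`, `y` large.  Among
the cyclic extensions `L = F(d^(1/p))` of degree `p` with given completions at all places above the rational primes
`≤ y`, where `d` has prescribed orders `z i ≠ 0` modulo `p` at `k` primes `q i` and orders divisible by `p` at all other primes
outside, the share with Leopoldt defect `δ_p(L) > δ_p(F)` is at most `p^(-r2) / (p - 1) + ε` (`r2` complex places of `F`).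
More generally the engine `S_SHARE` bounds the share of the `d` with a nontrivial class `a` satisfying the local conditions
`Cond`, for arbitrary systems `A v d` of at most `p ^ (c v + 1)` local classes above `p`, by
`p^(∑ c v - r2) / (p - 1) + ε`.

This is project LQ (`Pool.Agent.Q283.LQ.Stm`, helper283, `p = 2`) for odd `p`.  The proofs of LQ are templates:
BAS `Q208/LQ/Bas`, LOC, SU `Q96/LQ`, CHEB, BASE, COUNT, SH2 `Q129/LQ`, BAS1 `Q150/LQ`, AA, SH1, EE, LEO `Q151/LQ`,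
NEST, LA1, LA2 `Q53/LQ2`, SHARE, CR1A, CR2L `Q14/LQS`, ATL, CR1 `Q198/LQ`.
Facts used everywhere: `F` is totally complex (`ζ ∈ F`, `p ≥ 3`), so `[F : ℚ] = 2 r2`, and `N v ≡ 1` modulo `p` for `v ∤ p`
(the `ζ^i` are different modulo `v`, as `∏_(0<i<p) (1 - ζ^i) = p`).
-/

set_option autoImplicit false

namespace Pool.Agent.Q7.LK

open NumberField IsDedekindDomain Filter Topology Finset
open Pool.Agent.Q283.LQ (Sm Box Nest nS)

/-! ## Local theory -/

/-- JOB BAS. Elementary properties of `Lpw`, `vl`, `sy`.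
Proof.  (1) `Lpw` with `n = 0`: `v(a x^p - 1) < 1`, so `v(a x^p) = 1`.  (2) `(a x^p - 1)(b z^p) + (b z^p - 1)`.  (3) `x = a⁻¹`.
(4) `a⁻¹ (a x)^p = a^(p-1) x^p`.. : if `a x^p = 1 + m` then with `z = x⁻¹`: `a⁻¹ z^p = (1 + m)⁻¹`, and `v((1+m)⁻¹ - 1) = v(m)`.
(5) `WithZero.log_mul`.  (6) Newton iteration inside `F`: write `a x^p = 1 + p² m`, `v(m) < 1`.  With `z = 1 - p m`:
`(1 + p² m) z^p = 1 + p² m'`, where `m'` is a polynomial in `m` with integral coefficients divisible by `m²`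
(`z^p = 1 - p² m + ∑_(i≥2) C(p,i) (-p m)^i`, and `p² ∣ p^i`), so `v(m') ≤ v(m)²`; after enough steps
`v(p² m') < exp(-n)`.  (7) `v ∤ p`, `vl v a = 0`: the order of `a` is `p n`, multiply by `x^p`, `v(x) = exp(n)` suitable, to get a unit
`b = a x^p`; it is congruent modulo `v` to an element of `𝓞 F` outside `v`; the residue field `𝓞 F / v` has `N = N v` elements,
`p ∣ N - 1` and its group of units is cyclic, so `b^((N-1)/p)` is a `p`-th root of unity modulo `v`, i.e. `≡ ζ^s` for exactly one `s`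
modulo `p`; another `x` changes `b` by `t^p`, `v(t) = 1`, and `t^(N-1) ≡ 1`.  So `s` is unique and additive in `a`.  `s = 0` iff `b` is
a `p`-th power modulo `v` (cyclic group), and then `Lpw` by (6) (`v(p) = 1`); conversely `Lpw` gives `b ≡ t^p`. -/
def S_BAS : Prop := ∀ (p : ℕ) [Fact p.Prime] (F : Type) [Field F] [NumberField F] (v : HeightOneSpectrum (𝓞 F)),
  (∀ a : F, Lpw p v a → a ≠ 0 ∧ vl p v a = 0) ∧
  (∀ a b : F, Lpw p v a → Lpw p v b → Lpw p v (a * b)) ∧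
  (∀ a : F, a ≠ 0 → Lpw p v (a ^ p)) ∧
  (∀ a : F, Lpw p v a → Lpw p v a⁻¹) ∧
  (∀ a b : F, a ≠ 0 → b ≠ 0 → vl p v (a * b) = vl p v a + vl p v b) ∧
  (∀ a x : F, v.valuation F (a * x ^ p - 1) < v.valuation F ((p : F) ^ 2) → Lpw p v a) ∧
  (¬ Dp p v → ∀ ζ : F, IsPrimitiveRoot ζ p →
    p ∣ Ideal.absNorm v.asIdeal - 1 ∧
    (∀ a : F, a ≠ 0 → vl p v a = 0 → ∀ s : ZMod p, Sy p ζ v a s ↔ s = sy p ζ v a) ∧
    (∀ a b : F, a ≠ 0 → b ≠ 0 → vl p v a = 0 → vl p v b = 0 → sy p ζ v (a * b) = sy p ζ v a + sy p ζ v b) ∧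
    (∀ a : F, a ≠ 0 → vl p v a = 0 → (sy p ζ v a = 0 ↔ Lpw p v a)))

/-- JOB CPL (uses `S_BAS`). `Lpw` and the completion.
Proof.  If `a = s^p` in `K = v.adicCompletion F`, `s ≠ 0`: `F` is dense in `K`; choose `x ∈ F` close to `s⁻¹`: `a x^p → 1`.  Conversely
choose `x` with `v(a x^p - 1) < v(p²)`: the Newton iteration of `S_BAS` (6) converges in the complete field `K` (or Hensel's lemma for
`X^p - a x^p` in the valuation ring: the derivative at `1` is `p`). -/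
def S_CPL : Prop := ∀ (p : ℕ) [Fact p.Prime] (F : Type) [Field F] [NumberField F] (v : HeightOneSpectrum (𝓞 F))
  (a : F), Lpw p v a ↔ a ≠ 0 ∧ ∃ s : v.adicCompletion F, (a : v.adicCompletion F) = s ^ p

open Classical in
/-- `[F_v : ℚ_p]` if `v` lies above `p`, otherwise `0` -/
noncomputable def dv (p : ℕ) {F : Type} [Field F] [NumberField F] (v : HeightOneSpectrum (𝓞 F)) : ℕ :=
  if Dp p v then v.asIdeal.ramificationIdx ℤ * v.asIdeal.inertiaDeg ℤ else 0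

/-- JOB LOCV (uses `S_BAS`). The number of the local classes modulo `p`-th powers.
Proof.  (Parts of the template `Q96/LQ/LOC`.)  One factor `p` is the order `vl`; so it suffices that a set `B` of elements of
orders divisible by `p`, pairwise with `¬ Lpw v (b / b')`, has at most `p` elements if `v ∤ p` and at most `p (N v)^e` elements if
`v ∣ p`, `e` the ramification index (`v(p) = exp(-e)`); `N v = p^f`.  For `v ∤ p` the classes are
distinguished by `sy` (`S_BAS` (7)).  `v ∣ p`: multiply the `b` by `p`-th powers so that they are units at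
`v` and consider them in `G = (𝓞 F / v^M)ˣ`, `M = 2 e + 1`; if `b / b'` is a `p`-th power modulo `v^M` then `Lpw v (b / b')` (`S_BAS` (6)),
so their number is at most `|G / G^p| = |G[p]|`.  Let `z^p = 1` in `𝓞 F / v^M`, `z ∈ 𝓞 F`; `z^p - 1 = ∏_i (z - ζ^i)`; let `t_i` be the
order of `z - ζ^i` at `v` (at most `M`), `e₁ = e / (p - 1)` the order of `ζ^i - ζ^j`, `i ≠ j` (all equal, their product over `i ≠ 0` for
`j = 0` is `p`).  If all `t_i ≤ e₁` the sum is `≤ p e₁ = e + e₁ < M`, a contradiction; so some `t_i > e₁`, the others are `= e₁`, and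
`t_i ≥ M - (p - 1) e₁ = M - e`.  So `z` is modulo `v^(M - e)` one of the `p` classes `ζ^i`, each of which consists of `(N v)^e` classes
modulo `v^M`. -/
def S_LOCV : Prop := ∀ (p : ℕ) [Fact p.Prime], p ≠ 2 → ∀ (F : Type) [Field F] [NumberField F] (ζ : F),
  IsPrimitiveRoot ζ p → ∀ (v : HeightOneSpectrum (𝓞 F)) (B : Finset F), (∀ b ∈ B, b ≠ 0) →
    (∀ b ∈ B, ∀ b' ∈ B, b ≠ b' → ¬ Lpw p v (b / b')) → B.card ≤ p ^ (2 + dv p v)

/-- JOB LOC (uses `S_BAS`, `S_LOCV`). The number of the classes modulo `Nn p y`.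
Proof.  (Template `Q96/LQ/LOC`.)  `S = {v | Sm y v}` is finite.  The local classes at all `v ∈ S` (`Lpw v (b / b')` is an equivalence relation on
nonzero elements, `S_BAS` (2), (3), (4)) determine the class modulo `Nn p y`: `#B ≤ ∏_(v ∈ S) p^(2 + dv v)`, and `∑_(v ∣ p) e_v f_v = [F : ℚ]`
(`Ideal.sum_ramification_inertia`). -/
def S_LOC : Prop := ∀ (p : ℕ) [Fact p.Prime], p ≠ 2 → ∀ (F : Type) [Field F] [NumberField F] (ζ : F),
  IsPrimitiveRoot ζ p → ∀ y : ℕ, p ≤ y →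
  {v : HeightOneSpectrum (𝓞 F) | Sm y v}.Finite ∧
  ∀ B : Finset F, (∀ b ∈ B, b ≠ 0) → (∀ b ∈ B, ∀ b' ∈ B, b ≠ b' → ¬ Nn p y (b / b')) →
    B.card ≤ p ^ (2 * nS F y + Module.finrank ℚ F)

/-! ## Global theory -/

/-- JOB SU. Units outside `S`, `S` the primes above rational primes `≤ y`.
Proof.  Template `Q96/LQ/SU` (replace `2` by `p`): `y0` so large that every ideal class contains a nonzero ideal whose prime factors lie
above rational primes `≤ y0`.  The group `G` of the `a` with `v(a) = 1` for all `v ∉ S` is finitely generated of rank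
`(r1 + r2 - 1) + #S`, its torsion subgroup is finite and contains `ζ`, so `G / G^p` is a vector space over `F_p` of dimension
`≥ r1 + r2 + #S`. -/
def S_SU : Prop := ∀ (p : ℕ) [Fact p.Prime] (F : Type) [Field F] [NumberField F] (ζ : F), IsPrimitiveRoot ζ p →
  ∃ y0 : ℕ, ∀ y, y0 ≤ y →
  (∀ q : HeightOneSpectrum (𝓞 F), ¬ Sm y q → ∃ x : F, q.valuation F x = WithZero.exp (-1 : ℤ) ∧
    ∀ v : HeightOneSpectrum (𝓞 F), ¬ Sm y v → v ≠ q → v.valuation F x = 1) ∧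
  (∀ a : F, a ≠ 0 → (∀ v : HeightOneSpectrum (𝓞 F), ¬ Sm y v → vl p v a = 0) →
    ∃ x : F, x ≠ 0 ∧ ∀ v : HeightOneSpectrum (𝓞 F), ¬ Sm y v → v.valuation F (a * x ^ p) = 1) ∧
  ∃ (f : ℕ) (u : Fin f → F), InfinitePlace.nrComplexPlaces F + nS F y ≤ f ∧
    (∀ l, u l ≠ 0 ∧ ∀ v : HeightOneSpectrum (𝓞 F), ¬ Sm y v → v.valuation F (u l) = 1) ∧
    (∀ c : Fin f → ZMod p, IsPow p (mon u c) → c = 0) ∧
    ∀ a : F, a ≠ 0 → (∀ v : HeightOneSpectrum (𝓞 F), ¬ Sm y v → vl p v a = 0) →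
      ∃ c : Fin f → ZMod p, IsPow p (a * mon u c)

/-- JOB HS1A (uses `S_BAS`). **Artin's law of reciprocity for `F(c^(1/p))`.**
The library: `Pool.Agent.Q92.AR.Def` (divisors `Dv F`, `prin`, `art ψ`, norms `nmD`, `Ray`, `Cong`, `Pr`), `Pool.Agent.Q92.AR.All`
(`recip : S_AR`), `Pool.Agent.Q20.EX.All` (existence theorem; in particular `S_TRIV`: `TrivAt {v | Unramified H v} N (art ψ)`, i.e. the modulus
may be taken away from the unramified primes; see also `Pool.Agent.Q5.SG.Stm2`, `Pool.Agent.Q5.SH.Stm`, and `S_Nm` of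
`Pool.Agent.Q106.AR.nm` for norms of divisors; `Pool.Agent.Q128.AR.val_prin`).  The case `p = 2` is in `Pool.Agent.Q182.LQ.Rec`.
Proof.  `M = F(c^(1/p))`, a cyclic extension of degree `p`,
`ψ : Gal(M/F) → ℂˣ` with `σ(c^(1/p)) = ζ^s c^(1/p) ↦ ξ^s`, `ξ = exp(2πi/p)`.  Let `R` be the finite set of the primes above `p` and of the primes
with `vl v c ≠ 0`; the other primes are unramified in `M`.  By reciprocity and TRIV there is a `k` such that for all `x ∈ Fˣ` with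
`v(x - 1) < exp(-k)` for all `v ∈ R`: `∏_(w ∉ R) ψ(Frob_w)^(w(x)) = 1` (`F` is totally complex, so there is no condition of positivity).
For `w ∉ R`, `ψ(Frob_w) = ξ^(sy w c)`: `Frob_w(ρ) = ρ^(N w) = ρ c^((N w - 1)/p)` modulo a prime above `w` if `c` is a unit at `w` (multiply
`c` by a `p`-th power). -/
def S_HS1A : Prop := ∀ (p : ℕ) [Fact p.Prime], p ≠ 2 → ∀ (F : Type) [Field F] [NumberField F] (ζ : F),
  IsPrimitiveRoot ζ p → ∀ c : F, c ≠ 0 → ¬ IsPow p c →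
  {v : HeightOneSpectrum (𝓞 F) | Dp p v ∨ vl p v c ≠ 0}.Finite ∧ ∃ k : ℕ, ∀ x : F, x ≠ 0 →
    (∀ v : HeightOneSpectrum (𝓞 F), (Dp p v ∨ vl p v c ≠ 0) → v.valuation F (x - 1) < WithZero.exp (-(k : ℤ))) →
    {v : HeightOneSpectrum (𝓞 F) | vl p v x ≠ 0}.Finite ∧
    ∑ᶠ v : {v : HeightOneSpectrum (𝓞 F) // ¬ (Dp p v ∨ vl p v c ≠ 0)}, vl p v.1 x * sy p ζ v.1 c = 0

/-- JOB HS1N (uses `S_BAS`). Inert primes.
Proof.  Multiply `c` by a `p`-th power such that it is a unit at `v`.  `c` is not a `p`-th power modulo `v` (`S_BAS` (7)), so `X^p - c` is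
irreducible over the residue field `𝓞 F / v` (it contains the `p`-th roots of unity) and the residue field of a prime `P` of `M` above `v`
has the degree `p` over `𝓞 F / v`; so `P` is the only prime above `v`, and the order of `N(y)` at `v` is `p` times the order of `y` at `P`. -/
def S_HS1N : Prop := ∀ (p : ℕ) [Fact p.Prime], p ≠ 2 → ∀ (F M : Type) [Field F] [NumberField F] [Field M]
  [NumberField M] [Algebra F M] (ζ c : F), IsPrimitiveRoot ζ p → c ≠ 0 → Kum p F M c →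
  ∀ v : HeightOneSpectrum (𝓞 F), ¬ Dp p v → vl p v c = 0 → sy p ζ v c ≠ 0 →
  ∀ y : M, y ≠ 0 → vl p v (Algebra.norm F y) = 0

/-- JOB HS1 (uses `S_BAS`, `S_HS1A`, `S_HS1N`). **The local symbols `(·, c)_v` for one `c`.**
Proof.  If `c` is a `p`-th power in `F` take `τ = 0` (`unr` by `S_BAS` (7)).  Otherwise let `R` be the finite set of the primes above `p` and of the
primes with `vl v c ≠ 0`, `k` from `S_HS1A`.  Define for `v ∉ R`: `τ_v(a) = vl v a * sy v c`; for `v ∈ R`: choose by approximation `e ∈ Fˣ` with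
`v(e / a - 1) < exp(-k)` and `w(e - 1) < exp(-k)` for the other `w ∈ R`, and `τ_v(a) = - ∑_(w ∉ R) vl w e * sy w c` (independent of `e` by
`S_HS1A`, applied to the quotient; the sums are finite).
`mul`: clear.  `sum`: `a / ∏_(v ∈ R) e_v` is close to `1` at all `v ∈ R`.  `pow`: if `Lpw v a` then `a x^p` is close to `1` at `v` for some `x ∈ F`,
so `0 = τ_v(a x^p) = τ_v(a) + p τ_v(x)` for `v ∈ R`; for `v ∉ R` `vl v a = 0`.  `nrm`: `a = N(y)`, `y ∈ Mˣ`.
`v ∉ R`: `S_HS1N`.  `v ∈ R`: choose `y' ∈ Mˣ` with `y' / y` close to `1` at the primes above `v` and `y'` close to `1` at the primes above the other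
elements of `R` (e.g. coordinates with respect to a basis of `M / F` and approximation in `F`; the norm is a polynomial in the coordinates);
then `N(y') / N(y)` is close to `1` at `v`, so `τ_v(N y') = τ_v(N y)`, `τ_w(N y') = 0` for the other `w ∈ R`, and for `w ∉ R` by the first case,
so `τ_v(N y') = 0` by `sum`. -/
def S_HS1 : Prop := ∀ (p : ℕ) [Fact p.Prime], p ≠ 2 → ∀ (F : Type) [Field F] [NumberField F] (ζ : F),
  IsPrimitiveRoot ζ p → ∀ c : F, c ≠ 0 → ∃ τ : HeightOneSpectrum (𝓞 F) → F → ZMod p,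
  (∀ v a b, a ≠ 0 → b ≠ 0 → τ v (a * b) = τ v a + τ v b) ∧
  (∀ a, a ≠ 0 → {v | τ v a ≠ 0}.Finite ∧ ∑ᶠ v, τ v a = 0) ∧
  (∀ v a, Lpw p v a → τ v a = 0) ∧
  (∀ v, ¬ Dp p v → vl p v c = 0 → ∀ a, a ≠ 0 → τ v a = vl p v a * sy p ζ v c) ∧
  ∀ (M : Type) [Field M] [NumberField M] [Algebra F M], Kum p F M c → ∀ y : M, y ≠ 0 →
    ∀ v, τ v (Algebra.norm F y) = 0

/-- JOB HS2 (uses `S_BAS`, `S_HS1`). **The Hilbert symbols.**
Proof.  `t v a c = τ v a` for the family `τ` of `c` from `S_HS1` (`0` if `c = 0`).  Uniqueness: let `τ, τ'` be two families with the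
properties `mul`, `sum`, `pow` and `τ v a = τ' v a` for all `v` outside a finite set `R ⊇ {v above p}`.  For `v ∈ R` choose by approximation
`e ∈ F` very close to `a` at `v` and to `1` at the other elements of `R` (so close that `Lpw v (e / a)`, `Lpw w e`, `S_BAS` (6)); then
`τ v a = τ v e = - ∑_(w ∉ R) τ w e = τ' v a`.  This gives `t v a (c c') = t v a c + t v a c'` (for `v ∤ p` with `vl v c = vl v c' = 0` both
sides are `vl v a * sy v (c c')`).  Steinberg relation: `a + b = 1`, `a, b ≠ 0`.  If `a` is a `p`-th power `t v b a = p t v b s = 0`.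
Otherwise `M = F(a^(1/p))` (a field as in `Kum`), `b = 1 - a = N(1 - a^(1/p))`, so `t v b a = 0` by `S_HS1` (norms).
Antisymmetry: for `a ≠ 0, 1`: `-a = (1 - a) / (1 - a⁻¹)`, so `t v (-a) a = t v (1 - a) a - t v (1 - a⁻¹) a = 0 + t v (1 - a⁻¹) a⁻¹ = 0`; `-1` is a
`p`-th power, so `t v a a = 0` for all `a ≠ 0`, and `0 = t v (a c) (a c) = t v a c + t v c a`. -/
def S_HS2 : Prop := ∀ (p : ℕ) [Fact p.Prime], p ≠ 2 → ∀ (F : Type) [Field F] [NumberField F] (ζ : F),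
  IsPrimitiveRoot ζ p → ∃ t : HeightOneSpectrum (𝓞 F) → F → F → ZMod p,
  (∀ v a c, a ≠ 0 → c ≠ 0 → t v a c = - t v c a) ∧
  (∀ v a b c, a ≠ 0 → b ≠ 0 → c ≠ 0 → t v (a * b) c = t v a c + t v b c) ∧
  (∀ a c, a ≠ 0 → c ≠ 0 → {v | t v a c ≠ 0}.Finite ∧ ∑ᶠ v, t v a c = 0) ∧
  (∀ v a c, Lpw p v a → c ≠ 0 → t v a c = 0) ∧
  (∀ v, ¬ Dp p v → ∀ c, c ≠ 0 → vl p v c = 0 → ∀ a, a ≠ 0 → t v a c = vl p v a * sy p ζ v c) ∧
  ∀ c, c ≠ 0 → ∀ (M : Type) [Field M] [NumberField M] [Algebra F M], Kum p F M c → ∀ y : M, y ≠ 0 →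
    ∀ v, t v (Algebra.norm F y) c = 0

/-- JOB REC (uses `S_BAS`, `S_HS2`). **The law of reciprocity of the `p`-th power residue symbols.**
Proof.  `∑ᶠ v, t v b c = 0`.  For `v ∈ S` `t v b c = 0` (`Lpw v b`).  For `v ∉ S` with `v(c) = 1`: `t v b c = vl v b * sy v c`, and
`vl v c * sy v b = 0`; for `v ∉ S` with `v(b) = 1`: `t v b c = - t v c b = - vl v c * sy v b`, and `vl v b * sy v c = 0`. -/
def S_REC : Prop := ∀ (p : ℕ) [Fact p.Prime], p ≠ 2 → ∀ (F : Type) [Field F] [NumberField F] (ζ : F),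
  IsPrimitiveRoot ζ p → ∀ y, p ≤ y → ∀ b c : F, b ≠ 0 → c ≠ 0 →
  (∀ v : HeightOneSpectrum (𝓞 F), ¬ Sm y v → v.valuation F b = 1 ∨ v.valuation F c = 1) → Nn p y b →
  {v : HeightOneSpectrum (𝓞 F) | ¬ Sm y v ∧ (vl p v b ≠ 0 ∨ vl p v c ≠ 0)}.Finite ∧
  ∑ᶠ v : {v : HeightOneSpectrum (𝓞 F) // ¬ Sm y v}, vl p v.1 b * sy p ζ v.1 c =
    ∑ᶠ v : {v : HeightOneSpectrum (𝓞 F) // ¬ Sm y v}, vl p v.1 c * sy p ζ v.1 b

/-- JOB CHEB (uses `S_BAS`). Chebotarev's theorem for `p`-th power residue symbols over `F`, natural density.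
Proof.  Template `Q129/LQ/CHEB`, `CHEBA`, `CHEBB` (`ChebK` for the field generated by the `(a i)^(1/p)`; `ζ ∈ F`; Kummer theory: its
Galois group is `(ℤ/p)^m`, since the characters `σ ↦ ∏ (σ ρ_i / ρ_i)^(c i)`, `c ≠ 0`, are nontrivial).  For `v ∤ p` with `vl v (a i) = 0`
a Frobenius element at `v` maps `ρ_i` to `ζ^(sy v (a i)) ρ_i` (`ρ^(N v) = ρ a^((N v - 1)/p)` for a unit `a`); the other `v` are finitely many,
and the number of all `v` of norm `≤ X` tends to infinity. -/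
def S_CHEB : Prop := ∀ (p : ℕ) [Fact p.Prime] (F : Type) [Field F] [NumberField F] (ζ : F), IsPrimitiveRoot ζ p →
  ∀ (m : ℕ) (a : Fin m → F), (∀ i, a i ≠ 0) →
  (∀ c : Fin m → ZMod p, IsPow p (mon a c) → c = 0) → ∀ e : Fin m → ZMod p,
  Tendsto (fun X : ℕ =>
    ({v : HeightOneSpectrum (𝓞 F) | Ideal.absNorm v.asIdeal ≤ X ∧ ∀ i, sy p ζ v (a i) = e i}.ncard : ℝ) /
      ({v : HeightOneSpectrum (𝓞 F) | Ideal.absNorm v.asIdeal ≤ X}.ncard : ℝ)) atTop (𝓝 (1 / (p : ℝ) ^ m))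

section F

variable {F : Type} [Field F] [NumberField F]

open Classical in
/-- bases of the units outside `S` modulo `p`-th powers and of the classes modulo `Nn p y`, and generators of the primes
outside `S` (`S` the primes above rational primes `≤ y`) -/
structure Base (p : ℕ) (ζ : F) (y f : ℕ) (u r : Fin f → F) (π : HeightOneSpectrum (𝓞 F) → F)
    (g : (Fin f → ZMod p) → (Fin f → ZMod p) → ZMod p) : Prop where
  two : p ≤ y
  ue : ∀ l, u l ≠ 0
  re : ∀ l, r l ≠ 0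
  uo : ∀ l v, ¬ Sm y v → vl p v (u l) = 0
  ind : ∀ c : Fin f → ZMod p, IsPow p (mon u c) → c = 0
  full : ∀ a : F, a ≠ 0 → (∀ v : HeightOneSpectrum (𝓞 F), ¬ Sm y v → vl p v a = 0) →
    ∃ c : Fin f → ZMod p, IsPow p (a * mon u c)
  po : ∀ q, ¬ Sm y q → π q ≠ 0 ∧ ∀ v, ¬ Sm y v → vl p v (π q) = if v = q then 1 else 0
  cls : ∀ b : F, b ≠ 0 → ∃! x : (Fin f → ZMod p) × (Fin f → ZMod p), Nn p y (b * mon r x.1 * mon u x.2)
  pc : ∀ q, ¬ Sm y q → Nn p y (π q * mon r (fun l => sy p ζ q (u l)))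
  rcp : ∀ q q', ¬ Sm y q → ¬ Sm y q' → q ≠ q' →
    sy p ζ q' (π q) - sy p ζ q (π q') = g (fun l => sy p ζ q (u l)) (fun l => sy p ζ q' (u l))

/-- the first half of `Base` -/
structure Bas1 (p : ℕ) (ζ : F) (y f : ℕ) (u r : Fin f → F) (P : HeightOneSpectrum (𝓞 F) → F) : Prop where
  two : p ≤ y
  ue : ∀ l, u l ≠ 0
  re : ∀ l, r l ≠ 0
  uv : ∀ (l : Fin f) (v : HeightOneSpectrum (𝓞 F)), ¬ Sm y v → v.valuation F (u l) = 1
  ind : ∀ c : Fin f → ZMod p, IsPow p (mon u c) → c = 0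
  full : ∀ a : F, a ≠ 0 → (∀ v : HeightOneSpectrum (𝓞 F), ¬ Sm y v → vl p v a = 0) →
    ∃ c : Fin f → ZMod p, IsPow p (a * mon u c)
  pv : ∀ q : HeightOneSpectrum (𝓞 F), ¬ Sm y q → q.valuation F (P q) = WithZero.exp (-1 : ℤ) ∧
    ∀ v : HeightOneSpectrum (𝓞 F), ¬ Sm y v → v ≠ q → v.valuation F (P q) = 1
  cls : ∀ b : F, b ≠ 0 → ∃! x : (Fin f → ZMod p) × (Fin f → ZMod p), Nn p y (b * mon r x.1 * mon u x.2)
  pcl : ∀ q : HeightOneSpectrum (𝓞 F), ¬ Sm y q →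
    ∃ c : Fin f → ZMod p, Nn p y (P q * mon r (fun l => sy p ζ q (u l)) * mon u c)

end F

/-- JOB BAS1 (uses `S_BAS`, `S_LOC`, `S_SU`, `S_REC`, `S_CHEB`).  Template `Q150/LQ/BAS1`.
Proof.  `u` from `S_SU` (3), `P` from `S_SU` (1).  For `b ≠ 0` let `ψ_b(l) = ∑_(v ∉ S) vl v b * sy v (u l)`; `ψ` is a homomorphism
(`ψ_(b b') = ψ_b + ψ_(b')`, finite sums), `ψ_b = 0` if `Nn p y b` (`S_REC` with `c = u l`, a unit outside `S`) and if `b = mon u c`;
`ψ_(P q)(l) = sy q (u l)`.  For every `φ` there are infinitely many primes `q` with `sy q (u l) = φ l` for all `l` (`S_CHEB`); let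
`r l = (P q)⁻¹` for one with `φ = e_l` (the `l`-th unit vector), so `ψ_(mon r φ) = - φ`.  If `Nn p y (mon u c)` then `c = 0`: `S_REC` with
`b = mon u c` and `c = P q` gives `sy q (mon u c) = 0` for all `q ∉ S`, that is `∑ c_l sy q (u l) = 0`, contradicting `S_CHEB` if `c ≠ 0`.  So the
`p^(2f)` elements `mon r φ * mon u c` are pairwise inequivalent modulo `Nn p y` (apply `ψ`; `mon` is a homomorphism up to `p`-th powers),
and by `S_LOC` and `2 #S + [F : ℚ] = 2 (#S + r2) ≤ 2 f` every `b` is equivalent to exactly one inverse of them (`cls`; `Nn p y` is closed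
under products and inverses and contains the `p`-th powers).  `pcl`: the class `(φ, c)` of `P q` satisfies `ψ_(P q) - φ = 0`.
(`F` has no real places, so `[F : ℚ] = 2 r2`.) -/
def S_BAS1 : Prop := ∀ (p : ℕ) [Fact p.Prime], p ≠ 2 → ∀ (F : Type) [Field F] [NumberField F] (ζ : F),
  IsPrimitiveRoot ζ p → ∃ y0 : ℕ, ∀ y, y0 ≤ y →
  ∃ (f : ℕ) (u r : Fin f → F) (P : HeightOneSpectrum (𝓞 F) → F), Bas1 p ζ y f u r P ∧
    InfinitePlace.nrComplexPlaces F + nS F y ≤ f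

/-- JOB BASE (uses `S_BAS`, `S_BAS1`, `S_REC`, `S_CHEB`).  Template `Q129/LQ/BASE`.
Proof.  `π q = P q * mon u c` with `c` as in `Bas1.pcl`, so that `Nn p y (π q * mon r φ)`, `φ l = sy q (u l)`; `π q` has valuation
`exp(-1)` at `q` and `1` at the other `v ∉ S`.  Reciprocity: for `q ≠ q'` let `G(q, q') = sy q' (π q) - sy q (π q')`, `G(q', q) = - G(q, q')`.
If `q1, q2` have the same symbols `φ` and are different from `q'` then `G(q1, q') = G(q2, q')`: this is clear for `q1 = q2`; otherwise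
`b = π q1 / π q2` satisfies `Nn p y b` (divide the two relations `pc`), apply `S_REC` to `b` and `c = π q'`:
`sy q1 (π q') - sy q2 (π q') = sy q' b = sy q' (π q1) - sy q' (π q2)` (`vl` of `b` is `1` at `q1`, `-1` at `q2`).
`g φ φ'` = `G(q, q')` for one pair `q ≠ q'` with these symbols; another pair `q1 ≠ q1'`: choose `q2` with the symbols `φ`, different from
`q, q', q1, q1'` (infinitely many choices by `S_CHEB`): `G(q, q') = G(q2, q') = - G(q', q2) = - G(q1', q2) = G(q2, q1') = G(q1, q1')`. -/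
def S_BASE : Prop := ∀ (p : ℕ) [Fact p.Prime], p ≠ 2 → ∀ (F : Type) [Field F] [NumberField F] (ζ : F),
  IsPrimitiveRoot ζ p → ∃ y0 : ℕ, ∀ y, y0 ≤ y →
  ∃ (f : ℕ) (u r : Fin f → F) (π : HeightOneSpectrum (𝓞 F) → F)
    (g : (Fin f → ZMod p) → (Fin f → ZMod p) → ZMod p), Base p ζ y f u r π g ∧
    InfinitePlace.nrComplexPlaces F + nS F y ≤ f

section F2

variable {F : Type} [Field F] [NumberField F]

/-- the local conditions at the primes above rational primes `≤ y` -/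
structure CondS (p : ℕ) (A : HeightOneSpectrum (𝓞 F) → F → F → Prop) (y : ℕ) (D a : F) : Prop where
  ne : a ≠ 0
  unr : ∀ v : HeightOneSpectrum (𝓞 F), Sm y v → ¬ Dp p v → vl p v D = 0 → vl p v a = 0
  ram : ∀ v : HeightOneSpectrum (𝓞 F), Sm y v → ¬ Dp p v → vl p v D ≠ 0 → ∃ j : ℕ, Lpw p v (a * D ^ j)
  abv : ∀ v : HeightOneSpectrum (𝓞 F), Dp p v → A v D a

end F2

/-- JOB AA (uses `S_BAS`). The number of the classes with the local conditions at `S`.  Template `Q151/LQ/AA`.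
Proof.  For `v ∈ S = {v | Sm y v}` (finite) the elements `b ∈ B` have at most `p ^ (c v + 1)` classes modulo the local `p`-th powers at `v`
(`Lpw v (b / b')` is an equivalence relation on nonzero elements by `S_BAS` (2), (3), (4)): `v` above `p`: `Loc.num`; `v ∤ p`, `vl v D = 0`: all
`b` have `vl v b = 0`, the class is given by `sy v b` (`S_BAS` (7)), at most `p` classes; `vl v D ≠ 0`: `b` is equivalent to some
`(D^j)⁻¹`, `j` modulo `p`.  If `b, b'` have the same class at all `v ∈ S` then `Nn p y (b / b')`.  So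
`#B ≤ ∏_(v ∈ S) p ^ (c v + 1)`.  `Sm y v` for `v` above `p` as `p ≤ y`; `c v = 0` for the other `v`, the support of `c` is finite. -/
def S_AA : Prop := ∀ (p : ℕ) [Fact p.Prime] (F : Type) [Field F] [NumberField F] (ζ : F), IsPrimitiveRoot ζ p →
  ∀ (A : HeightOneSpectrum (𝓞 F) → F → F → Prop) (c : HeightOneSpectrum (𝓞 F) → ℕ),
  Loc p A c → ∀ (y : ℕ) (D : F), p ≤ y → D ≠ 0 → {v : HeightOneSpectrum (𝓞 F) | Sm y v}.Finite →
  ∀ B : Finset F, (∀ b ∈ B, CondS p A y D b) → (∀ b ∈ B, ∀ b' ∈ B, b ≠ b' → ¬ Nn p y (b / b')) →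
  B.card ≤ p ^ (nS F y + ∑ᶠ v, c v)

/-! ## Tables -/

/-- tables: `f` symbols for each of the `k` primes and one symbol for each pair -/
abbrev Tab (p f k : ℕ) : Type :=
  (Fin k → Fin f → ZMod p) × ({x : Fin k × Fin k // x.1 < x.2} → ZMod p)

/-- the symbol of the generator of the `i`-th prime at the `j`-th prime -/
def Mt {p f k : ℕ} (g : (Fin f → ZMod p) → (Fin f → ZMod p) → ZMod p) (τ : Tab p f k) (i j : Fin k) : ZMod p :=
  if h : i < j then τ.2 ⟨(i, j), h⟩ else if h : j < i then τ.2 ⟨(j, i), h⟩ + g (τ.1 i) (τ.1 j) else 0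

/-- the scalar product -/
def dot {p f : ℕ} (a b : Fin f → ZMod p) : ZMod p := ∑ l, a l * b l

/-- `(c, Y)` is a nontrivial solution for the table `τ` (`a = ∏ π_j ^ (Y j) / mon u c`, `D = ∏ π_j ^ (z j) / mon u w`) -/
def IsSol {p f k : ℕ} (g : (Fin f → ZMod p) → (Fin f → ZMod p) → ZMod p) (w : Fin f → ZMod p) (z : Fin k → ZMod p)
    (E : Finset ((Fin f → ZMod p) × (Fin f → ZMod p))) (τ : Tab p f k) (x : (Fin f → ZMod p) × (Fin k → ZMod p)) :
    Prop :=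
  (∀ j : Fin k, (j : ℕ) = 0 → x.2 j = 0) ∧ x ≠ 0 ∧ (∑ j, x.2 j • τ.1 j, x.1) ∈ E ∧
    ∀ j, ∑ i, (x.2 i - x.2 j * (z j)⁻¹ * z i) * Mt g τ i j = dot (τ.1 j) (x.1 - (x.2 j * (z j)⁻¹) • w)

open Classical in
/-- JOB COUNT. The mean number of solutions (only Mathlib).  Template `Q129/LQ/COUNT`.
Proof.  Exchange the sums.  `Y = 0`: `c ≠ 0` and `dot (φ_j) c = 0` for all `j`: `φ_1, .., φ_(k-1)` are free in a hyperplane and `φ_0` is
determined by `∑ z_j φ_j = ψ`: share `≤ p^(-(k-1))` for each of the at most `p^f` vectors `c`.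
`Y ≠ 0`, `Y_0 = 0`: let `Y_(j0) ≠ 0`, `ρ_j = Y_j / z_j` (so `ρ_0 = 0 ≠ ρ_(j0)`).  (a) the share of the `(φ_j)` with `∑ z_j φ_j = ψ` and
`∑ Y_j φ_j = ψ'` is `p^(-f)` among those with `∑ z_j φ_j = ψ` (`z` and `Y` are independent: solve for `φ_0` and `φ_(j0)`), so the sum over `c` of
the shares with `(∑ Y φ, c) ∈ E` is `#E / p^f`.  (b) For given `φ`, `c` the share of the entries `m` which satisfy the conditions for all
`j ≠ j0` is `p^(-(k-1))` (drop the condition at `j0`).  The entry `m_{i,j}` of a pair occurs in the condition at `j` with the coefficient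
`Y_i - ρ_j z_i = z_i (ρ_i - ρ_j)` and in the condition at `i` with the coefficient `z_j (ρ_j - ρ_i)` (`Mt g τ i j` is `m_{i,j}` plus a number
depending only on `φ`), and in no other condition.  The condition at `j ≠ j0` has its own variable: `m_{j,j0}` if `ρ_j ≠ ρ_(j0)` (in
particular for `j = 0`), `m_{0,j}` if `ρ_j = ρ_(j0)` (`≠ ρ_0`); its coefficient is not `0`.  The condition at `j ≠ 0, j0` contains no other
of these own variables.  So choose first the variables that are not own ones, then the own variables of the `j ≠ 0, j0`, then the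
own variable `m_{0,j0}` of the condition at `0`.  There are `p^(k-1) - 1` vectors `Y`. -/
def S_COUNT : Prop := ∀ (p : ℕ) [Fact p.Prime] (f k : ℕ), 1 ≤ k →
  ∀ (g : (Fin f → ZMod p) → (Fin f → ZMod p) → ZMod p) (w ψ : Fin f → ZMod p) (z : Fin k → ZMod p),
  (∀ i, z i ≠ 0) → ∀ (E : Finset ((Fin f → ZMod p) × (Fin f → ZMod p))),
  (∑ τ ∈ univ.filter (fun τ : Tab p f k => ∑ j, z j • τ.1 j = ψ),
      (((univ : Finset ((Fin f → ZMod p) × (Fin k → ZMod p))).filter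
        (fun x => IsSol g w z E τ x)).card : ℝ)) ≤
    ((E.card : ℝ) / (p : ℝ) ^ f + (p : ℝ) ^ f * p / (p : ℝ) ^ k) *
      ((univ.filter (fun τ : Tab p f k => ∑ j, z j • τ.1 j = ψ)).card : ℝ)

section F3

variable {F : Type} [Field F] [NumberField F]

/-- the tuple `q` has the table `τ` -/
def Tb {p f k : ℕ} (ζ : F) (u : Fin f → F) (π : HeightOneSpectrum (𝓞 F) → F) (τ : Tab p f k)
    (q : Fin k → HeightOneSpectrum (𝓞 F)) : Prop :=
  (∀ j l, sy p ζ (q j) (u l) = τ.1 j l) ∧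
  ∀ x : {x : Fin k × Fin k // x.1 < x.2}, sy p ζ (q x.1.2) (π (q x.1.1)) = τ.2 x

end F3

/-- JOB NEST (uses `S_CHEB`, `S_BAS`). Equidistribution of the tables.  Template `Q53/LQ2/NEST`.
Proof.  Induction on `k`.  `Box y (snoc X x)` consists of the `snoc q v`, `q ∈ Box y X`, `¬ Sm y v`, `v ≠ q i`, `N v ≤ x`.  For fixed `q` the
elements `u l`, `π (q i)` are independent modulo `p`-th powers (`Base.ind`; orders at the `q i`, `Base.po`), so by `S_CHEB` the share of the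
`v` with the `f + k` prescribed symbols tends to `p^(-(f+k))` (finitely many `v` are excluded, and the number of the `v` tends to
infinity).  `(k+1) f + (k+1) k / 2 = k f + k (k-1)/2 + (f + k)`. -/
def S_NEST : Prop := ∀ (p : ℕ) [Fact p.Prime] (F : Type) [Field F] [NumberField F] (ζ : F), IsPrimitiveRoot ζ p →
  ∀ (y f : ℕ) (u r : Fin f → F)
  (π : HeightOneSpectrum (𝓞 F) → F) (g : (Fin f → ZMod p) → (Fin f → ZMod p) → ZMod p),
  Base p ζ y f u r π g → ∀ (k : ℕ) (τ : Tab p f k) (ε : ℝ), 0 < ε → Nest k fun X =>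
    (Box y X : Set (Fin k → HeightOneSpectrum (𝓞 F))).Finite ∧
    0 < ((Box y X : Set (Fin k → HeightOneSpectrum (𝓞 F))).ncard : ℝ) ∧
    |({q ∈ (Box y X : Set (Fin k → HeightOneSpectrum (𝓞 F))) | Tb ζ u π τ q}.ncard : ℝ) /
      ((Box y X : Set (Fin k → HeightOneSpectrum (𝓞 F))).ncard : ℝ) -
        1 / (p : ℝ) ^ (k * f + k * (k - 1) / 2)| ≤ ε

/-- JOB SH1 (uses `S_BAS`). When does some `D` fit?  Template `Q151/LQ/SH1`.
Proof.  `→`: `D / ∏ π (q j)^(z j)` has orders divisible by `p` outside `S` (`Fits.ram`, `Base.po`, `q` injective), so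
`D / ∏ π (q j)^(z j) * mon u c` is a `p`-th power for some `c` (`Base.full`); with `Base.pc` (and `mon r` multiplicative up to `p`-th powers;
`Nn p y` closed under products and inverses, contains the nonzero `p`-th powers) `Nn p y (D * mon r (∑ z_j φ_j) * mon u c)`;
`Nn p y (D / D0)` by `Fits.loc`; so `Nn p y (D0 * mon r (∑ z_j φ_j) * mon u c)` and by the uniqueness in `Base.cls` `∑ z_j φ_j = ψ`, `c = w`.
`←`: `D = (mon u w)⁻¹ * ∏ π (q j)^(z j)`. -/
def S_SH1 : Prop := ∀ (p : ℕ) [Fact p.Prime] (F : Type) [Field F] [NumberField F] (ζ : F), IsPrimitiveRoot ζ p →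
  ∀ (y f : ℕ) (u r : Fin f → F)
  (π : HeightOneSpectrum (𝓞 F) → F) (g : (Fin f → ZMod p) → (Fin f → ZMod p) → ZMod p),
  Base p ζ y f u r π g → ∀ (D0 : F) (ψ w : Fin f → ZMod p), D0 ≠ 0 → Nn p y (D0 * mon r ψ * mon u w) →
  ∀ (k : ℕ) (z : Fin k → ZMod p) (q : Fin k → HeightOneSpectrum (𝓞 F)), Function.Injective q →
  (∀ i, ¬ Sm y (q i)) → ∀ τ : Tab p f k, Tb ζ u π τ q →
  ((∃ D, Fits p y D0 z q D) ↔ ∑ j, z j • τ.1 j = ψ) ∧
  ∀ D, Fits p y D0 z q D → IsPow p (D * mon u w / ∏ j, π (q j) ^ (z j).val)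

open Classical in
/-- JOB SH2 (uses `S_BAS`, `S_SH1`). The solutions of the table.  Template `Q129/LQ/SH2`.
Proof.  Let `a` satisfy `Cond p A D a` and be no `p`-th power times a power of `D`.  For `1 ≤ i ≤ p - 1` the number `a^i` has the same
properties (`Loc.pow`; if `a^i D^j` is a `p`-th power, `i i' ≡ 1` modulo `p`, then `a D^(i' j)` is one), and so has `a_i = a^i D^t` for every
`t` (`Loc.clo`); choose `t` such that `vl (q 0) (a_i) = 0` (`vl (q 0) D = z 0 ≠ 0`; here `k ≥ 1`, `Fits.ram`, `q` injective).  Put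
`Y_j = vl (q j) (a_i)`; for the other `v ∉ S` `vl v D = 0` and so `vl v a_i = 0` (`Cond.unr`; `v ∤ p` since `p ≤ y`).  So
`a_i * mon u c / ∏ π (q j)^(Y j)` is a `p`-th power for some `c` (`Base.full`), and the class of `a_i` is `(∑ Y_j φ_j, c)` (`Base.pc`), it lies in
`E` since `CondS p A y D0 a_i` (`D / D0` is `Lpw` at `S`, `Loc.inv` with `D0 = D * (D0 / D)`, `S_BAS`).  At `q j`: by `Cond.ram` some
`a_i D^s` is `Lpw`, so its `vl` is `0`: `s ≡ - Y_j / z_j`, and its symbol is `0`: by `S_SH1`, `S_BAS` (7) (`sy (q j)` is additive on the elements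
with `vl = 0`; the total exponent of `π (q j)` in `a_i D^s` is divisible by `p`), `sy (q j) (π (q l)) = Mt g τ l j` (the table for `l < j`, `Base.rcp`
for `l > j`): `∑_(l ≠ j) (Y_l + s z_l) Mt g τ l j - dot φ_j (c + s w) = 0`.  `(c, Y) ≠ 0` since `a_i` is not a `p`-th power.  The `p - 1`
solutions are different: if `a_i` and `a_(i')` give the same `(c, Y)` then `a_i / a_(i') = a^(i - i') D^(..)` is a `p`-th power, so `i = i'`. -/
def S_SH2 : Prop := ∀ (p : ℕ) [Fact p.Prime] (F : Type) [Field F] [NumberField F] (ζ : F), IsPrimitiveRoot ζ p →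
  ∀ (y f : ℕ) (u r : Fin f → F)
  (π : HeightOneSpectrum (𝓞 F) → F) (g : (Fin f → ZMod p) → (Fin f → ZMod p) → ZMod p),
  Base p ζ y f u r π g → ∀ (A : HeightOneSpectrum (𝓞 F) → F → F → Prop) (c : HeightOneSpectrum (𝓞 F) → ℕ),
  Loc p A c → ∀ (D0 : F) (ψ w : Fin f → ZMod p), D0 ≠ 0 → Nn p y (D0 * mon r ψ * mon u w) →
  ∀ (k : ℕ) (z : Fin k → ZMod p) (q : Fin k → HeightOneSpectrum (𝓞 F)), 1 ≤ k → (∀ i, z i ≠ 0) →
  Function.Injective q → (∀ i, ¬ Sm y (q i)) →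
  ∀ τ : Tab p f k, Tb ζ u π τ q → ∀ E : Finset ((Fin f → ZMod p) × (Fin f → ZMod p)),
  (∀ a x, CondS p A y D0 a → Nn p y (a * mon r x.1 * mon u x.2) → x ∈ E) →
  ∀ D : F, Fits p y D0 z q D → Bad p A D →
  p - 1 ≤ ((univ : Finset ((Fin f → ZMod p) × (Fin k → ZMod p))).filter
        (fun x => IsSol g w z E τ x)).card

/-- JOB EE (uses `S_AA`, `S_BAS`). The local classes.  Template `Q151/LQ/EE`.
Proof.  `E` = the set of the classes `x` (`Base.cls`) of the `a` with `CondS p A y D0 a` (`Finset.univ.filter`).  Choose one `a_x` for every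
`x ∈ E`; `Nn p y (a_x / a_x')` implies `x = x'`; `S_AA`: `#E ≤ p^(#S + C)`, `C = ∑ c v`, and `#S + r2 ≤ f`. -/
def S_EE : Prop := ∀ (p : ℕ) [Fact p.Prime] (F : Type) [Field F] [NumberField F] (ζ : F), IsPrimitiveRoot ζ p →
  ∀ (y f : ℕ) (u r : Fin f → F)
  (π : HeightOneSpectrum (𝓞 F) → F) (g : (Fin f → ZMod p) → (Fin f → ZMod p) → ZMod p),
  Base p ζ y f u r π g → InfinitePlace.nrComplexPlaces F + nS F y ≤ f →
  {v : HeightOneSpectrum (𝓞 F) | Sm y v}.Finite →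
  ∀ (A : HeightOneSpectrum (𝓞 F) → F → F → Prop) (c : HeightOneSpectrum (𝓞 F) → ℕ), Loc p A c →
  ∀ D0 : F, D0 ≠ 0 → ∃ E : Finset ((Fin f → ZMod p) × (Fin f → ZMod p)),
    (∀ a x, CondS p A y D0 a → Nn p y (a * mon r x.1 * mon u x.2) → x ∈ E) ∧
    (E.card : ℝ) / (p : ℝ) ^ f ≤ (p : ℝ) ^ (∑ᶠ v, c v) * (1 / (p : ℝ)) ^ InfinitePlace.nrComplexPlaces F

/-- JOB SHARE (uses `S_BASE`, `S_LOC`, `S_SH1`, `S_SH2`, `S_EE`, `S_COUNT`, `S_NEST`).  Template `Q14/LQS/Share`.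
Proof.  Let `(ψ, w)` be the class of `D0` (`Base.cls`), `E` from `S_EE`, `μ = p^C (1/p)^r2`.  By Markov's inequality and `S_COUNT` the share
of the tables with `∑ z_j φ_j = ψ` which have at least `p - 1` solutions, among the tables with `∑ z_j φ_j = ψ`, is
`≤ (μ + p^(f+1-k)) / (p - 1)`.  For `q ∈ Box y X` with the table `τ` (every `q` has exactly one table): some `D` fits iff `∑ z_j φ_j = ψ`
(`S_SH1`), and if some fitting `D` is `Bad` then `τ` has at least `p - 1` solutions (`S_SH2`).  Use `S_NEST` for all tables with a small `ε'`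
(finitely many; `Nest` is compatible with finite conjunctions and monotone, see `nest_mono`, `nest_and` in the templates).  The tables with
`∑ z_j φ_j = ψ` have the total share `p^(-f)` (positive, if `k ≥ 1`); the errors are absorbed by `ε`; `k0` with `p^(f+1-k0) ≤ ε / 2`, `k0 ≥ 1`
(independent of `z`). -/
def S_SHARE : Prop := ∀ (p : ℕ) [Fact p.Prime], p ≠ 2 → ∀ (F : Type) [Field F] [NumberField F] (ζ : F),
  IsPrimitiveRoot ζ p → ∃ y0 : ℕ, ∀ y, y0 ≤ y →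
  ∀ (A : HeightOneSpectrum (𝓞 F) → F → F → Prop) (c : HeightOneSpectrum (𝓞 F) → ℕ), Loc p A c →
  ∀ D0 : F, D0 ≠ 0 → ∀ ε : ℝ, 0 < ε →
  ∃ k0 : ℕ, ∀ k, k0 ≤ k → ∀ z : Fin k → ZMod p, (∀ i, z i ≠ 0) → Nest k fun X =>
    (Box y X : Set (Fin k → HeightOneSpectrum (𝓞 F))).Finite ∧
    0 < ({q ∈ (Box y X : Set (Fin k → HeightOneSpectrum (𝓞 F))) | ∃ D, Fits p y D0 z q D}.ncard : ℝ) ∧
    ({q ∈ (Box y X : Set (Fin k → HeightOneSpectrum (𝓞 F))) | ∃ D, Fits p y D0 z q D ∧ Bad p A D}.ncard : ℝ) ≤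
      ((p : ℝ) ^ (∑ᶠ v, c v) * (1 / (p : ℝ)) ^ InfinitePlace.nrComplexPlaces F / (p - 1) + ε) *
        ({q ∈ (Box y X : Set (Fin k → HeightOneSpectrum (𝓞 F))) | ∃ D, Fits p y D0 z q D}.ncard : ℝ)

/-! ## Units -/

/-- JOB ATL (uses `S_BAS`, `S_CPL`). `AT` has the properties of `Loc`.
Proof.  Everything with `S_CPL` (`Lpw v b` iff `b ≠ 0` is a `p`-th power in `K = v.adicCompletion F`).  `num`: `D` not a local `p`-th power:
every `b ∈ B` is equivalent to `(D^j)⁻¹`, `0 ≤ j < p`.  `D` a local `p`-th power: `b ξ_b = s_b^p`; choose among the finitely many roots of unity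
`ξ_b`, `b ∈ B`, one of maximal order `p^m`; all the others are powers of it (the `p^m`-th roots of unity of a field form a cyclic group
generated by every element of order `p^m`), so the class of `b` is the class of one of `ξ^0, .., ξ^(p-1)`. -/
def S_ATL : Prop := ∀ (p : ℕ) [Fact p.Prime], p ≠ 2 → ∀ (F : Type) [Field F] [NumberField F] (ζ : F),
  IsPrimitiveRoot ζ p → Loc p (AT p (F := F)) (fun _ => 0)

/-- JOB CR1A. A relation between units of relative norm `1`.  Template `Q14/LQS/Cr1a` (and `LA2` in `Q53/LQ2`), `2 → p`.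
Proof.  The set `{a | Rel p K J ε a}` is a submodule of `(ℤ_p)^n` (see the template), for arbitrary tuples of units `ε`, and if
`ε_i^h = ∏ δ_j^(c_ij)` then `Rel ε b` implies `Rel δ (b c)`.  Let `ε_1, .., ε_n`, relations `a_1, .., a_(s+1)` as in `Df p L J (s + 1)`, `J = I 𝓞 L`.
`E` = the group of the units of `L` of relative norm `1`, `θ` = a basis of `E` modulo torsion, `δ_1, ..` fundamental units of `F`, `h > 0`
kills the roots of unity of `L`; `N(ε_i)^h = ∏ δ_j^(c_ij)`, `(ε_i^p / N ε_i)^h = ∏ θ_j^(c'_ij)`, so `ε_i^(ph) = ∏ δ_j^(c_ij) ∏ θ_j^(c'_ij)`.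
If `Rel p L J ε b` then `Rel p F I (N ε) b` (`x ≡ 1` modulo `J^N` implies `σ x ≡ 1` modulo `J^N` for `σ ∈ Gal(L/F)`, so `N x ≡ 1` modulo
`J^N ∩ 𝓞 F = I^N`), so `Rel p F I δ (b c)`, and `Rel p L J (ε^p / N ε) b`, so `Rel p L J θ (b c')`.  As `¬ Df p F I (s + 1)`, the `s + 1` vectors
`a_j c` are dependent: there is a nonzero `b` in the span of the `a_j` with `b c = 0`.  `b c' ≠ 0`: the rows of the integral matrix
`(c | c')` are independent over `ℤ` (`ε` independent), hence over `ℤ_p`. -/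
def S_CR1A : Prop := ∀ (p : ℕ) [Fact p.Prime], p ≠ 2 → ∀ (F L : Type) [Field F] [NumberField F] [Field L]
  [NumberField L] [Algebra F L] (ζ d : F), IsPrimitiveRoot ζ p → Kum p F L d → ¬ IsPow p d →
  ∀ I : Ideal (𝓞 F), (p : 𝓞 F) ∈ I → ∀ s : ℕ, ¬ Df p F I (s + 1) →
  Df p L (I.map (algebraMap (𝓞 F) (𝓞 L))) (s + 1) →
  ∃ (n : ℕ) (θ : Fin n → (𝓞 L)ˣ) (h : ℕ), 0 < h ∧
    (∀ i, Algebra.norm F (((θ i : (𝓞 L)ˣ) : 𝓞 L) : L) = 1) ∧
    (∀ c : Fin n → ℤ, ∏ i, θ i ^ c i = 1 → c = 0) ∧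
    (∀ η : (𝓞 L)ˣ, Algebra.norm F ((η : 𝓞 L) : L) = 1 → ∃ c : Fin n → ℤ, η ^ h = (∏ i, θ i ^ c i) ^ h) ∧
    ∃ a : Fin n → ℤ_[p], a ≠ 0 ∧ Rel p L (I.map (algebraMap (𝓞 F) (𝓞 L))) θ a

/-- JOB LA. Saturation (only Mathlib).
Proof.  `T = 1 + B`; `1 + T + ... + T^(p-1) = 0`.  In `ℤ[X]`: `X^(p-1) + ... + 1 = (X - 1) q(X) + p`, so `B q(T) = - p`; and
`(X-1)^(p-1) ≡ X^(p-1) + ... + 1` modulo `p`, so `B^(p-1) = p C` with an integral matrix `C`.  (Here matrices act on row vectors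
`x ↦ x B`.)  If every `a ∈ R` is `a = b B` with `b ∈ (ℤ_p)^n`, then `- p b = b B q(T) = a q(T) ∈ R` (`R` is stable under `T`), so `b ∈ R` as `R` is
saturated; by induction every `a ∈ R` is in `(ℤ_p)^n B^j` for all `j`, hence divisible by every power of `p`, so `a = 0`. -/
def S_LA : Prop := ∀ (p : ℕ) [Fact p.Prime] (n : ℕ) (B : Matrix (Fin n) (Fin n) ℤ),
  ∑ i ∈ range p, (1 + B) ^ i = 0 → ∀ R : Submodule ℤ_[p] (Fin n → ℤ_[p]),
  (∀ x ∈ R, Matrix.vecMul x (B.map (Int.cast : ℤ → ℤ_[p])) ∈ R) →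
  (∀ x : Fin n → ℤ_[p], (p : ℤ_[p]) • x ∈ R → x ∈ R) → R ≠ ⊥ →
  (∃ a ∈ R, ∀ b : Fin n → ℤ_[p], a ≠ Matrix.vecMul b (B.map (Int.cast : ℤ → ℤ_[p]))) ∧
  ∃ Q : Matrix (Fin n) (Fin n) ℤ, Q * B = (p : Matrix (Fin n) (Fin n) ℤ)

/-- JOB CR1 (uses `S_CR1A`, `S_LA`). A unit of relative norm `1` from a relation.
Proof.  `θ, h, a` from `S_CR1A`; the units of norm `1` are the `ω ∏ θ^c`, `ω` a root of unity killed by `h` (`c` is unique).
`σ θ_i = ω_i ∏ θ_j^(A_ij)`, `B = A - 1`; `N = 1` on the units of norm `1` gives `1 + A + ... + A^(p-1) = 0`.  `R = {x : p^m x` is a relation for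
some `m}` is a saturated submodule, nonzero, and stable under `A`: apply `σ` to `∏ θ^(m_k) → 1` (`σ J = J`) and raise to the power `h`:
`h x A` is a relation, and `h = p^i h'`, `h'` a unit of `ℤ_p`.  By `S_LA` there is an `x ∈ R` which is not in `(ℤ_p)^n B`.  Let `m ∈ ℤ^n` be
congruent to `x` modulo `p`, `w = ∏ θ^m`.  If `w = ζ^j σ(η) / η`, `η = ω ∏ θ^c`, then `m = c B`, and `x = c B + p b = c B + b Q B`, a
contradiction.  `p^M₀ x` is a relation: integral vectors `n_k → p^M₀ x` with `∏ θ^(n_k) → 1`; for large `k` `n_k = p^M₀ m_k`, `m_k → x`,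
`m_k = m + p n'`, so `∏ θ^(n_k) = (w η^p)^(p^M₀)` with `η = ∏ θ^(n')`. -/
def S_CR1 : Prop := ∀ (p : ℕ) [Fact p.Prime], p ≠ 2 → ∀ (F L : Type) [Field F] [NumberField F] [Field L]
  [NumberField L] [Algebra F L] (ζ d : F), IsPrimitiveRoot ζ p → Kum p F L d → ¬ IsPow p d →
  ∀ I : Ideal (𝓞 F), (p : 𝓞 F) ∈ I → ∀ s : ℕ, ¬ Df p F I (s + 1) →
  Df p L (I.map (algebraMap (𝓞 F) (𝓞 L))) (s + 1) → ∀ σ : L ≃ₐ[F] L, σ ≠ 1 →
  ∃ w : (𝓞 L)ˣ, Algebra.norm F ((w : 𝓞 L) : L) = 1 ∧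
    (∀ (η : (𝓞 L)ˣ) (j : ℕ), Algebra.norm F ((η : 𝓞 L) : L) = 1 →
      ((w : 𝓞 L) : L) * ((η : 𝓞 L) : L) ≠ (algebraMap F L ζ) ^ j * σ ((η : 𝓞 L) : L)) ∧
    ∃ M : ℕ, ∀ N : ℕ, ∃ η : (𝓞 L)ˣ, Algebra.norm F ((η : 𝓞 L) : L) = 1 ∧
      (((w * η ^ p) ^ p ^ M : (𝓞 L)ˣ) : 𝓞 L) - 1 ∈ I.map (algebraMap (𝓞 F) (𝓞 L)) ^ N

/-- JOB CR2LA (uses `S_BAS`, `S_CPL`). The condition at the primes `v` above `p` which divide `I`, `d` a local `p`-th power.
Proof.  `K = v.adicCompletion F`, `J = I 𝓞 L`, `ρ ∈ L`, `ρ^p = d`, `σ ρ = ζ' ρ`, `ζ'` a primitive `p`-th root of unity of `F`.  By Hilbert 90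
(Mathlib; `L/F` is cyclic, generated by `σ`) `η = σ(c)/c` for a unit `η` of norm `1`, so `w η^p = σ(Y)/Y`, `Y = y c^p`, `N(Y) = N(y) N(c)^p`:
it suffices to find the class of `N(Y)` at `v` for some `η = η_N`, `N` large.
There is an `F`-embedding `τ_0 : L → K` (`ρ ↦` a `p`-th root of `d`, `S_CPL`); `τ_i = τ_0 σ^i`.  `τ_i` maps `J^N` into
the elements of valuation `≤ exp(-N)` (`I ≤ v`).  `x_i = τ_i(w η^p)` satisfies `x_i^(p^M) → 1` (`N → ∞`), so for large `N` `x_i = ξ_i (1 + small)`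
with a root of unity `ξ_i ∈ K`, `ξ_i^(p^M) = 1` (`v(x - ξ)` small for one of the roots `ξ` of `X^(p^M) - 1` in `K`: compactness of the units of `K`,
a limit point of the `x_i` is a root of `X^(p^M) - 1`; pass to a subsequence).  `τ_i(Y) = τ_0(Y) ∏_(j<i) x_j`, so
`N(Y) = ∏_(i<p) τ_i(Y) = τ_0(Y)^p ∏_i ∏_(j<i) x_j` is a `p`-th power times
a root of unity of `p`-power order times a number close to `1` (a `p`-th power). -/
def S_CR2LA : Prop := ∀ (p : ℕ) [Fact p.Prime], p ≠ 2 → ∀ (F L : Type) [Field F] [NumberField F] [Field L]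
  [NumberField L] [Algebra F L] (ζ d : F), IsPrimitiveRoot ζ p → Kum p F L d → ¬ IsPow p d →
  ∀ σ : L ≃ₐ[F] L, σ ≠ 1 → ∀ I : Ideal (𝓞 F), (p : 𝓞 F) ∈ I →
  ∀ v : HeightOneSpectrum (𝓞 F), I ≤ v.asIdeal → ∀ (w : (𝓞 L)ˣ) (M : ℕ),
  (∀ N : ℕ, ∃ η : (𝓞 L)ˣ, Algebra.norm F ((η : 𝓞 L) : L) = 1 ∧
      (((w * η ^ p) ^ p ^ M : (𝓞 L)ˣ) : 𝓞 L) - 1 ∈ I.map (algebraMap (𝓞 F) (𝓞 L)) ^ N) →
  ∀ y : L, y ≠ 0 → ((w : 𝓞 L) : L) * y = σ y → Lpw p v d →
  ∃ ξ s : v.adicCompletion F, (∃ m : ℕ, ξ ^ p ^ m = 1) ∧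
    ((Algebra.norm F y : F) : v.adicCompletion F) * ξ = s ^ p

/-- JOB CR2LB (uses `S_BAS`, `S_CPL`). The condition at the primes `v` above `p` which divide `I`, `d` not a local `p`-th power.
Proof.  `K = v.adicCompletion F`, `J = I 𝓞 L`, `ρ ∈ L`, `ρ^p = d`, `σ ρ = ζ' ρ`, `ζ'` a primitive `p`-th root of unity of `F`.  By Hilbert 90
(Mathlib; `L/F` is cyclic, generated by `σ`) `η = σ(c)/c` for a unit `η` of norm `1`, so `w η^p = σ(Y)/Y`, `Y = y c^p`, `N(Y) = N(y) N(c)^p`: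
it suffices to find the class of `N(Y)` at `v` for some `η = η_N`, `N` large.
`X^p - d` is irreducible over `K` (`S_CPL`, `X_pow_sub_C_irreducible_iff_of_prime`); let `M' = K(ρ)` (e.g. `AdjoinRoot`), a field of degree `p` over
the locally compact field `K`, with the automorphism `σ`, and `L → M'` compatible with `σ` and the norms.  The coordinates of `w η_N^p` with
respect to `1, ρ, .., ρ^(p-1)` are bounded at `v` (a unit of `𝓞 L`; `p^p d^(p-1) ·` coordinates of integral elements are integral up to a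
constant), so a subsequence converges in `M' = K^p` to some `ξ` with `ξ^(p^M) = 1` and `N(ξ) = 1`.  Claim: `ξ^p = 1`.  Let `ξ` have the order
`p^r`, `r ≥ 2`, `σ ξ = ξ^s`.  `ζ` is a power of `ξ^(p^(r-1))` and fixed by `σ`, so `s ≡ 1` modulo `p`; `σ^p = 1` gives `s^p ≡ 1` modulo `p^r`, so
`s = 1 + c p^(r-1)` modulo `p^r` (`p` odd), and `N(ξ) = ξ^(1 + s + ... + s^(p-1)) = ξ^p ≠ 1`, as
`∑_i (1 + i c p^(r-1)) = p + c p^(r-1) p (p-1)/2 ≡ p`.  A contradiction.  So `ξ = ζ'^i`,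
`w' = w η_N^p ζ'^(-i) → 1`, `w' = σ(Y')/Y'`, `Y' = Y ρ^(-i)`, `N(Y') = N(Y) d^(-i)` (`N(ρ) = d`, `p` odd).  On the other hand for
`T = ∑_(i<p) ∏_(j<i) σ^j(w')` one has `w' σ(T) = T` (as `N(w') = 1`) and `T → p ≠ 0`; so `σ(Y' T)= Y' T`, i.e. `Y' T ∈ Fˣ`, `N(Y') N(T)` is a `p`-th
power in `F`, and `N(T) → p^p`, so `N(T)` is a `p`-th power in `K` for large `N`.  So `N(Y) d^(-i)` is a local `p`-th power. -/
def S_CR2LB : Prop := ∀ (p : ℕ) [Fact p.Prime], p ≠ 2 → ∀ (F L : Type) [Field F] [NumberField F] [Field L]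
  [NumberField L] [Algebra F L] (ζ d : F), IsPrimitiveRoot ζ p → Kum p F L d → ¬ IsPow p d →
  ∀ σ : L ≃ₐ[F] L, σ ≠ 1 → ∀ I : Ideal (𝓞 F), (p : 𝓞 F) ∈ I →
  ∀ v : HeightOneSpectrum (𝓞 F), I ≤ v.asIdeal → ∀ (w : (𝓞 L)ˣ) (M : ℕ),
  (∀ N : ℕ, ∃ η : (𝓞 L)ˣ, Algebra.norm F ((η : 𝓞 L) : L) = 1 ∧
      (((w * η ^ p) ^ p ^ M : (𝓞 L)ˣ) : 𝓞 L) - 1 ∈ I.map (algebraMap (𝓞 F) (𝓞 L)) ^ N) →
  ∀ y : L, y ≠ 0 → ((w : 𝓞 L) : L) * y = σ y → ¬ Lpw p v d →
  ∃ j : ℕ, Lpw p v (Algebra.norm F y * d ^ j)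

/-- JOB CR2T (uses `S_BAS`). The conditions outside `p`.
Proof.  `σ(y) = w y`, `w` a unit, so the (fractional) ideal of `y` is stable under `σ`, i.e. all primes of `L` above `v` occur in `y` with the
same exponent `e_y`.  `vl v d = 0`, `v ∤ p`: `v` is unramified in `L` (replace `d` by `d x^p`, a unit at `v`; `X^p - d` is separable modulo `v`), so
`v(N y) = e_y ∑_(P ∣ v) f(P) = p e_y`.  (Or: there is a `t ∈ F` such that `t y` is a unit at all primes above `v`.)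
`vl v d ≠ 0`, `v ∤ p`: there is one prime `P` of `L` above `v`, `P^p = v`, with residue field `𝓞 F / v` (`P(ρ^a x) = 1` for suitable `a`, `x ∈ F`).
Choose `i ≥ 0`, `t ∈ F` such that `y' = y ρ^i t` is a unit at `P`; `N(y') = N(y) d^i t^p` (`N(ρ) = d`, `p` odd).  `σ` acts trivially on the residue
field, `y' ≡ b` modulo `P` with `b ∈ 𝓞 F` outside `v`, so `N(y') ≡ b^p` modulo `P`, hence modulo `v`, and `Lpw v (N(y'))` by `S_BAS` (6). -/
def S_CR2T : Prop := ∀ (p : ℕ) [Fact p.Prime], p ≠ 2 → ∀ (F L : Type) [Field F] [NumberField F] [Field L]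
  [NumberField L] [Algebra F L] (ζ d : F), IsPrimitiveRoot ζ p → Kum p F L d → ¬ IsPow p d →
  ∀ σ : L ≃ₐ[F] L, σ ≠ 1 → ∀ v : HeightOneSpectrum (𝓞 F), ¬ Dp p v → ∀ w : (𝓞 L)ˣ,
  ∀ y : L, y ≠ 0 → ((w : 𝓞 L) : L) * y = σ y →
  (vl p v d = 0 → vl p v (Algebra.norm F y) = 0) ∧
  (vl p v d ≠ 0 → ∃ j : ℕ, Lpw p v (Algebra.norm F y * d ^ j))

/-- JOB CR2 (uses `S_CR1`, `S_CR2LA`, `S_CR2LB`, `S_CR2T`). The class of the unit, for `I = (p)`.
Proof.  `L/F` is cyclic of degree `p`, `σ ≠ 1` with `σ ρ = ζ' ρ`, `ζ' = ζ^b` a primitive root.  `w` from `S_CR1`; Hilbert 90 (Mathlib, cyclic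
case; or `y = x + w⁻¹ σ x + ..` for a suitable `x`): `σ y = w y` for some `y ≠ 0`.  `a = N(y)`: `Cond p (AT p) d a` by `S_CR2T`, `S_CR2LA`, `S_CR2LB`
(all `v` above `p` contain `(p)`).  Suppose `a d^j = t^p`, `t ∈ F`, `j : ℕ`: `y' = y ρ^j / t` has norm `1` (`N(ρ) = d` as `p` is odd) and
`σ(y') = w ζ'^j y'`.  The ideal of `y'` is stable under `σ` and has norm `1`, so it is trivial (at a prime `P` of `L` all conjugates have the
same exponent `e`, and the exponent of `N(y') = ∏ σ^i(y') = 1` at `P` is `p e`), so `y'` is a unit `η` of norm `1`, and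
`w η = ζ'^(-j) σ(η)`, a contradiction to `S_CR1` (`ζ'^(-j)` is a power of `ζ`). -/
def S_CR2 : Prop := ∀ (p : ℕ) [Fact p.Prime], p ≠ 2 → ∀ (F L : Type) [Field F] [NumberField F] [Field L]
  [NumberField L] [Algebra F L] (ζ d : F), IsPrimitiveRoot ζ p → Kum p F L d → ¬ IsPow p d →
  ∀ s : ℕ, ¬ Df p F (Ideal.span {(p : 𝓞 F)}) (s + 1) →
  Df p L ((Ideal.span {(p : 𝓞 F)}).map (algebraMap (𝓞 F) (𝓞 L))) (s + 1) → Bad p (AT p) d

/-- Leopoldt's conjecture for `K` and `p` in the form of the frozen statement -/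
def Leo (p : ℕ) [Fact p.Prime] (K : Type) [Field K] [NumberField K] : Prop :=
  ∀ (n : ℕ) (ε : Fin n → (𝓞 K)ˣ),
    (∀ i, ((ε i : 𝓞 K) - 1) ∈ (Ideal.span {(p : 𝓞 K)}).radical) →
    (∀ c : Fin n → ℤ, ∏ i, ε i ^ c i = 1 → c = 0) →
    ∀ (a : Fin n → PadicInt p) (m : ℕ → Fin n → ℤ),
      (∀ i, Tendsto (fun k => ((m k i : ℤ) : PadicInt p)) atTop (𝓝 (a i))) →
      (∀ N : ℕ, ∀ᶠ k in atTop,
        (p : 𝓞 K) ^ N ∣ (((∏ i, ε i ^ m k i : (𝓞 K)ˣ) : 𝓞 K) - 1)) →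
      a = 0

/-- JOB LEO. Leopoldt's conjecture says that the defect is `0`.  Template `Q151/LQ/LEO`, `2 → p`.
Proof.  (`x ∈ (p)^N` iff `p^N ∣ x`.)  `→`: if `Df p K (p) 1`, one nonzero relation `a` between independent units `ε_i`; with `h` = exponent of
`(𝓞 K / p)ˣ` the units `ε_i^h` are `≡ 1`, independent, and satisfy the relation `a`.  `←`: a nonzero `a` is a linearly independent family with
one element. -/
def S_LEO : Prop := ∀ (p : ℕ) [Fact p.Prime] (K : Type) [Field K] [NumberField K],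
  Leo p K ↔ ¬ Df p K (Ideal.span {(p : 𝓞 K)}) 1

/-- the main theorem -/
def S_MAIN : Prop := ∀ (p : ℕ) [Fact p.Prime], p ≠ 2 → ∀ (F : Type) [Field F] [NumberField F] (ζ : F),
  IsPrimitiveRoot ζ p → ∃ y0 : ℕ, ∀ y, y0 ≤ y →
  ∀ d0 : F, d0 ≠ 0 → ∀ ε : ℝ, 0 < ε →
  ∃ k0 : ℕ, ∀ k, k0 ≤ k → ∀ z : Fin k → ZMod p, (∀ i, z i ≠ 0) → Nest k fun X =>
    (Box y X : Set (Fin k → HeightOneSpectrum (𝓞 F))).Finite ∧
    0 < ({q ∈ (Box y X : Set (Fin k → HeightOneSpectrum (𝓞 F))) | ∃ d, Fits p y d0 z q d}.ncard : ℝ) ∧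
    ∀ s : ℕ, ¬ Df p F (Ideal.span {(p : 𝓞 F)}) (s + 1) →
      ({q ∈ (Box y X : Set (Fin k → HeightOneSpectrum (𝓞 F))) | ∃ d, Fits p y d0 z q d ∧
          ∃ (L : Type) (_ : Field L) (_ : NumberField L) (_ : Algebra F L),
            Kum p F L d ∧ Df p L (Ideal.span {(p : 𝓞 L)}) (s + 1)}.ncard : ℝ) ≤
        ((1 / (p : ℝ)) ^ InfinitePlace.nrComplexPlaces F / (p - 1) + ε) *
          ({q ∈ (Box y X : Set (Fin k → HeightOneSpectrum (𝓞 F))) | ∃ d, Fits p y d0 z q d}.ncard : ℝ)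

end Pool.Agent.Q7.LK
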