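import Pool.Agent.Q7.LK.Stm2

/-!
# Project LK (helper7), part 3: many classes
-/

set_option autoImplicit false

namespace Pool.Agent.Q7.LK

open NumberField IsDedekindDomain Filter Topology Finset
open Pool.Agent.Q283.LQ (Sm Box Nest nS)

/-- there are `N` numbers with the local conditions which are pairwise different, and different from `1`, up to `p`-th
powers and powers of `D` -/
def Many {F : Type} [Field F] [NumberField F] (p : ℕ) (A : HeightOneSpectrum (𝓞 F) → F → F → Prop) (D : F) (N : ℕ) :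
    Prop :=
  ∃ a : Fin N → F, (∀ i, Cond p A D (a i) ∧ ∀ j : ℕ, ¬ IsPow p (a i * D ^ j)) ∧
    ∀ i i', i ≠ i' → ∀ j : ℕ, ¬ IsPow p (a i / a i' * D ^ j)

open Classical in
/-- JOB SH2M (uses `S_BAS`, `S_SH1`). The solutions of the table, many classes.  Same proof as `S_SH2` (`Pool/Agent/Q123/LK/SH2.lean`): instead
of the powers `a^i` take the given `N` numbers `a i`; they are normalised by a power of `D` such that `vl (q 0) = 0`; two of them which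
give the same solution `(c, Y)` differ by a `p`-th power and a power of `D`. -/
def S_SH2M : Prop := ∀ (p : ℕ) [Fact p.Prime] (F : Type) [Field F] [NumberField F] (ζ : F), IsPrimitiveRoot ζ p →
  ∀ (y f : ℕ) (u r : Fin f → F)
  (π : HeightOneSpectrum (𝓞 F) → F) (g : (Fin f → ZMod p) → (Fin f → ZMod p) → ZMod p),
  Base p ζ y f u r π g → ∀ (A : HeightOneSpectrum (𝓞 F) → F → F → Prop) (c : HeightOneSpectrum (𝓞 F) → ℕ),
  Loc p A c → ∀ (D0 : F) (ψ w : Fin f → ZMod p), D0 ≠ 0 → Nn p y (D0 * mon r ψ * mon u w) →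
  ∀ (k : ℕ) (z : Fin k → ZMod p) (q : Fin k → HeightOneSpectrum (𝓞 F)), 1 ≤ k → (∀ i, z i ≠ 0) →
  Function.Injective q → (∀ i, ¬ Sm y (q i)) →
  ∀ τ : Tab p f k, Tb ζ u π τ q → ∀ E : Finset ((Fin f → ZMod p) × (Fin f → ZMod p)),
  (∀ a x, CondS p A y D0 a → Nn p y (a * mon r x.1 * mon u x.2) → x ∈ E) →
  ∀ D : F, Fits p y D0 z q D → ∀ N : ℕ, Many p A D N →
  N ≤ ((univ : Finset ((Fin f → ZMod p) × (Fin k → ZMod p))).filter
        (fun x => IsSol g w z E τ x)).card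

/-- JOB SHAREM (uses `S_BASE`, `S_LOC`, `S_SH1`, `S_SH2M`, `S_EE`, `S_COUNT`, `S_NEST`).  Same proof as `S_SHARE`
(`Pool/Agent/Q14/LK/Share.lean`), with `N` instead of `p - 1`; one `k0` for all `N` (`N ≥ 1`: the error `p^(f+1-k) / N` is at most `p^(f+1-k)`), and the
statement inside `Nest` for all `N ≥ 1` at once: the table gives for every `N` the bound, the number of the tables is finite and
the error from `S_NEST` is at most `ε / 2` in total for all `N` (the sum over all tables with `∑ z_j φ_j = ψ` of the errors). -/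
def S_SHAREM : Prop := ∀ (p : ℕ) [Fact p.Prime], p ≠ 2 → ∀ (F : Type) [Field F] [NumberField F] (ζ : F),
  IsPrimitiveRoot ζ p → ∃ y0 : ℕ, ∀ y, y0 ≤ y →
  ∀ (A : HeightOneSpectrum (𝓞 F) → F → F → Prop) (c : HeightOneSpectrum (𝓞 F) → ℕ), Loc p A c →
  ∀ D0 : F, D0 ≠ 0 → ∀ ε : ℝ, 0 < ε →
  ∃ k0 : ℕ, ∀ k, k0 ≤ k → ∀ z : Fin k → ZMod p, (∀ i, z i ≠ 0) → Nest k fun X =>
    (Box y X : Set (Fin k → HeightOneSpectrum (𝓞 F))).Finite ∧
    0 < ({q ∈ (Box y X : Set (Fin k → HeightOneSpectrum (𝓞 F))) | ∃ D, Fits p y D0 z q D}.ncard : ℝ) ∧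
    ∀ N : ℕ, 1 ≤ N →
      ({q ∈ (Box y X : Set (Fin k → HeightOneSpectrum (𝓞 F))) | ∃ D, Fits p y D0 z q D ∧ Many p A D N}.ncard : ℝ) ≤
        ((p : ℝ) ^ (∑ᶠ v, c v) * (1 / (p : ℝ)) ^ InfinitePlace.nrComplexPlaces F / N + ε) *
          ({q ∈ (Box y X : Set (Fin k → HeightOneSpectrum (𝓞 F))) | ∃ D, Fits p y D0 z q D}.ncard : ℝ)

/-- JOB LAM. Saturation (only Mathlib), compare `S_LA` (`Pool/Agent/Q14/LK/LA.lean`).
Proof.  `O = ℤ_p[X] / (1 + X + ... + X^(p-1))` is a discrete valuation ring with uniformizer `X - 1` and residue field `F_p`; elementary: `T = 1 + B` acts on row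
vectors, `B^(p-1) = p C` with `C` integral and commuting with `B`, and `C` is invertible over `ℤ_p` (`Q B = p`, `Q = - q(T)`; `B^(p-1) = p C`; from `Q^(p-1) B^(p-1) = p^(p-1)` and
`Q B = p` one gets `B^(p-1) = p C`, `Q C' ..`; or by the ring `O`).  `R` is saturated and stable under `B`; `R / R B` is a vector space over `F_p` (`p = Q B`), its dimension `d` satisfies
`rank R = (p - 1) d` (`R / R B ≅ R B^i / R B^(i+1)` as `B` is injective, `R B^(p-1) = p R` as `C` is invertible, and `|R / p R| = p^(rank R)`).  So `(p - 1) d ≥ m`, and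
`d ≥ t`.  Choose `x_1, .., x_t ∈ R` independent modulo `R B`; if `∑ c_i x_i + p b' = b B` for some `b` then `p b = b B Q.. ∈ R`, `b ∈ R` (as in `S_LA`). -/
def S_LAM : Prop := ∀ (p : ℕ) [Fact p.Prime] (n m t : ℕ) (B : Matrix (Fin n) (Fin n) ℤ),
  ∑ i ∈ range p, (1 + B) ^ i = 0 → ∀ R : Submodule ℤ_[p] (Fin n → ℤ_[p]),
  (∀ x ∈ R, Matrix.vecMul x (B.map (Int.cast : ℤ → ℤ_[p])) ∈ R) →
  (∀ x : Fin n → ℤ_[p], (p : ℤ_[p]) • x ∈ R → x ∈ R) →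
  (∃ a : Fin m → Fin n → ℤ_[p], LinearIndependent ℤ_[p] a ∧ ∀ i, a i ∈ R) → (p - 1) * t < m + (p - 1) →
  ∃ x : Fin t → Fin n → ℤ_[p], (∀ i, x i ∈ R) ∧ ∀ c : Fin t → ℤ, (∃ i, ¬ (p : ℤ) ∣ c i) →
    ∀ b : Fin n → ℤ_[p], ∑ i, (c i : ℤ_[p]) • x i ≠ Matrix.vecMul b (B.map (Int.cast : ℤ → ℤ_[p]))

/-- `m` independent relations at the places dividing `I` between the units of `L` of relative norm `1` -/
def OutM (p : ℕ) [Fact p.Prime] (F L : Type) [Field F] [NumberField F] [Field L] [NumberField L] [Algebra F L]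
    (I : Ideal (𝓞 F)) (m : ℕ) : Prop :=
  ∃ (n : ℕ) (θ : Fin n → (𝓞 L)ˣ) (h : ℕ), 0 < h ∧
    (∀ i, Algebra.norm F (((θ i : (𝓞 L)ˣ) : 𝓞 L) : L) = 1) ∧
    (∀ c : Fin n → ℤ, ∏ i, θ i ^ c i = 1 → c = 0) ∧
    (∀ η : (𝓞 L)ˣ, Algebra.norm F ((η : 𝓞 L) : L) = 1 → ∃ c : Fin n → ℤ, η ^ h = (∏ i, θ i ^ c i) ^ h) ∧
    ∃ a : Fin m → Fin n → ℤ_[p], LinearIndependent ℤ_[p] a ∧
      ∀ j, Rel p L (I.map (algebraMap (𝓞 F) (𝓞 L))) θ (a j)

/-- JOB CR1AM. Relations between units of relative norm `1`.  Same proof as `S_CR1A` (`Pool/Agent/Q123/LK/CR1A.lean`; several relations for `p = 2`: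
`Pool/Agent/Q14/LQS/Cr1a.lean`). -/
def S_CR1AM : Prop := ∀ (p : ℕ) [Fact p.Prime], p ≠ 2 → ∀ (F L : Type) [Field F] [NumberField F] [Field L]
  [NumberField L] [Algebra F L] (ζ d : F), IsPrimitiveRoot ζ p → Kum p F L d → ¬ IsPow p d →
  ∀ I : Ideal (𝓞 F), (p : 𝓞 F) ∈ I → ∀ s m : ℕ, ¬ Df p F I (s + 1) →
  Df p L (I.map (algebraMap (𝓞 F) (𝓞 L))) (s + m) → OutM p F L I m

/-- `t` units `w` of relative norm `1`, independent modulo `p`-th powers and the `ζ^j σ(η) / η`, and close to roots of unity times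
`p`-th powers -/
def OutW (p : ℕ) (F L : Type) [Field F] [NumberField F] [Field L] [NumberField L] [Algebra F L] (ζ : F)
    (I : Ideal (𝓞 F)) (σ : L ≃ₐ[F] L) (t : ℕ) : Prop :=
  ∃ w : Fin t → (𝓞 L)ˣ, (∀ i, Algebra.norm F (((w i : (𝓞 L)ˣ) : 𝓞 L) : L) = 1) ∧
    (∀ c : Fin t → ℤ, (∃ i, ¬ (p : ℤ) ∣ c i) → ∀ (η : (𝓞 L)ˣ) (j : ℕ), Algebra.norm F ((η : 𝓞 L) : L) = 1 →
      (((∏ i, w i ^ c i : (𝓞 L)ˣ) : 𝓞 L) : L) * ((η : 𝓞 L) : L) ≠ (algebraMap F L ζ) ^ j * σ ((η : 𝓞 L) : L)) ∧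
    ∃ M : ℕ, ∀ (c : Fin t → ℤ) (N : ℕ), ∃ η : (𝓞 L)ˣ, Algebra.norm F ((η : 𝓞 L) : L) = 1 ∧
      ((((∏ i, w i ^ c i) * η ^ p) ^ p ^ M : (𝓞 L)ˣ) : 𝓞 L) - 1 ∈ I.map (algebraMap (𝓞 F) (𝓞 L)) ^ N

/-- JOB CR1BM (uses `S_LAM`). Units of relative norm `1` from relations.  Same proof as `S_CR1B` (`Pool/Agent/Q129/LK/CR1B.lean`,
`Pool/Agent/Q224/LK/CR1.lean`), with the `t` vectors `x_i` of `S_LAM` instead of one. -/
def S_CR1BM : Prop := ∀ (p : ℕ) [Fact p.Prime], p ≠ 2 → ∀ (F L : Type) [Field F] [NumberField F] [Field L]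
  [NumberField L] [Algebra F L] (ζ d : F), IsPrimitiveRoot ζ p → Kum p F L d → ¬ IsPow p d →
  ∀ I : Ideal (𝓞 F), (p : 𝓞 F) ∈ I → ∀ m t : ℕ, OutM p F L I m → (p - 1) * t < m + (p - 1) →
  ∀ σ : L ≃ₐ[F] L, σ ≠ 1 → OutW p F L ζ I σ t

/-- JOB CR2M (uses `S_CR2LA`, `S_CR2LB`, `S_CR2T`, `S_CR2U`). The classes of the units, for arbitrary `I`.
Same proof as `S_CR2I` (`Pool/Agent/Q22/LK/Cr2i.lean`) for each `w_c = ∏ w_i^(c_i)`, `c ∈ (ℤ/p)^t` nonzero (representatives `0 ≤ c_i < p`): `σ(y_i) = w_i y_i`,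
`y_c = ∏ y_i^(c_i)`, `a_c = N(y_c) = ∏ N(y_i)^(c_i)`.  If `a_c / a_c' * d^j` is a `p`-th power, `c ≠ c'`, then as there for the exponents `c - c'`. -/
def S_CR2M : Prop := ∀ (p : ℕ) [Fact p.Prime], p ≠ 2 → ∀ (F L : Type) [Field F] [NumberField F] [Field L]
  [NumberField L] [Algebra F L] (ζ d : F), IsPrimitiveRoot ζ p → Kum p F L d → ¬ IsPow p d →
  ∀ I : Ideal (𝓞 F), (p : 𝓞 F) ∈ I → ∀ (t : ℕ) (σ : L ≃ₐ[F] L), σ ≠ 1 → OutW p F L ζ I σ t →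
  Many p (AI p I) d (p ^ t - 1)

end Pool.Agent.Q7.LK
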