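import Pool.Agent.Q7.LK.Ide

/-!
# The local degrees at the places outside a p-ordinary CM type (helper7)
-/

set_option autoImplicit false

namespace Pool.Agent.Q7.LK

open NumberField IsDedekindDomain Filter Topology Finset
open Pool.Agent.W289.SL

section

variable {p : ℕ} [Fact p.Prime] {F K : Type} [Field F] [NumberField F] [Field K] [NumberField K] [Algebra F K]

theorem exists_conj (hFK : Module.finrank F K = 2) : ∃ c : K ≃ₐ[F] K, c ≠ 1 := by
  have : Algebra.IsQuadraticExtension F K := ⟨hFK⟩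
  have : IsGalois F K := inferInstance
  have h := IsGalois.card_aut_eq_finrank F K
  rw [hFK] at h
  by_contra hc
  push Not at hc
  have : Subsingleton (K ≃ₐ[F] K) := ⟨fun a b => by rw [hc a, hc b]⟩
  have h1 : Nat.card (K ≃ₐ[F] K) ≤ 1 := Finite.card_le_one_iff_subsingleton.2 inferInstance
  omega

open Pointwise in
theorem smul_Pr (c : K ≃ₐ[F] K) (σ : K →+* ℂ_[p]) :
    c • Pr σ = Pr (σ.comp ((c⁻¹ : K ≃ₐ[F] K) : K →+* K)) := by
  ext x
  rw [Ideal.mem_pointwise_smul_iff_inv_smul_mem, mem_Pr, mem_Pr]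
  rfl

open Pointwise in
theorem flip_Pr {S : Set (K →+* ℂ_[p])} (hCM : IsCMType p F K S) (hS : Ordinary S) (c : K ≃ₐ[F] K) (hc : c ≠ 1)
    (σ : K →+* ℂ_[p]) : IS S ≤ c • Pr σ ↔ ¬ IS S ≤ Pr σ := by
  rw [smul_Pr, IS_le_iff hS, IS_le_iff hS]
  have h := hCM c hc (σ.comp ((c⁻¹ : K ≃ₐ[F] K) : K →+* K))
  have e : (σ.comp ((c⁻¹ : K ≃ₐ[F] K) : K →+* K)).comp (c : K →+* K) = σ := by
    ext x
    show σ ((c⁻¹ : K ≃ₐ[F] K) (c x)) = σ x
    congr 1
    exact c.symm_apply_apply x
  rw [e] at h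
  exact h

theorem two_mem_of_over (q : (Ideal.span {(p : ℤ)}).primesOver (𝓞 K)) : (p : 𝓞 K) ∈ q.1 := by
  have h := q.2.2.over
  have h1 : (p : ℤ) ∈ Ideal.under ℤ q.1 := by
    rw [← h]
    exact Ideal.mem_span_singleton_self _
  rw [Ideal.under_def, Ideal.mem_comap] at h1
  simpa using h1

/-- the point of an ideal above `p` -/
noncomputable def pt (q : (Ideal.span {(p : ℤ)}).primesOver (𝓞 K)) : HeightOneSpectrum (𝓞 K) where
  asIdeal := q.1
  isPrime := q.2.1
  ne_bot := by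
    intro h
    have h1 := two_mem_of_over q
    rw [h, Ideal.mem_bot] at h1
    exact Nat.cast_ne_zero.2 (Fact.out : p.Prime).ne_zero h1

theorem pt_inj : Function.Injective (pt (p := p) (K := K)) := by
  intro a b h
  apply Subtype.ext
  have := congrArg HeightOneSpectrum.asIdeal h
  exact this

theorem range_pt : Set.range (pt (p := p) (K := K)) = {v | Dp p v} := by
  ext v
  constructor
  · rintro ⟨q, rfl⟩
    exact two_mem_of_over q
  · intro hv
    have hp : (Ideal.span {(p : ℤ)}).IsMaximal := by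
      apply PrincipalIdealRing.isMaximal_of_irreducible
      exact (Nat.prime_iff_prime_int.1 (Fact.out : p.Prime)).irreducible
    have hlo : v.asIdeal.LiesOver (Ideal.span {(p : ℤ)}) := by
      refine ⟨?_⟩
      apply hp.eq_of_le
      · exact (Ideal.IsPrime.under ℤ v.asIdeal).ne_top
      · rw [Ideal.span_singleton_le_iff_mem, Ideal.under_def, Ideal.mem_comap]
        have hv' : (p : 𝓞 K) ∈ v.asIdeal := hv
        simpa using hv'
    exact ⟨⟨v.asIdeal, v.isPrime, hlo⟩, rfl⟩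

open Classical in
theorem finsum_cI (I : Ideal (𝓞 K)) [Fintype ((Ideal.span {(p : ℤ)}).primesOver (𝓞 K))] :
    ∑ᶠ v, cI p I v = ∑ q : (Ideal.span {(p : ℤ)}).primesOver (𝓞 K),
      if I ≤ q.1 then 0 else q.1.ramificationIdx ℤ * q.1.inertiaDeg ℤ := by
  have h1 : ∑ᶠ v, cI p I v = ∑ᶠ v ∈ Set.range (pt (p := p) (K := K)), cI p I v := by
    rw [← finsum_mem_univ]
    apply finsum_mem_inter_support_eq'
    intro x hx
    rw [range_pt]
    refine ⟨fun _ => ?_, fun _ => trivial⟩
    by_contra h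
    apply hx
    unfold cI
    rw [if_neg]
    exact fun h2 => h h2.1
  rw [h1, finsum_mem_range pt_inj, finsum_eq_sum_of_fintype]
  refine Finset.sum_congr rfl fun q _ => ?_
  have h2 : Dp p (pt q) := two_mem_of_over q
  unfold cI
  by_cases h : I ≤ q.1
  · rw [if_pos h, if_neg]
    exact fun h3 => h3.2 h
  · rw [if_neg h, if_pos ⟨h2, h⟩]
    rfl

open Pointwise in
theorem sum_cI [IsTotallyComplex K] (hFK : Module.finrank F K = 2) {S : Set (K →+* ℂ_[p])}
    (hCM : IsCMType p F K S) (hS : Ordinary S) :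
    ∑ᶠ v, cI p (IS S) v = InfinitePlace.nrComplexPlaces K := by
  classical
  obtain ⟨c, hc⟩ := exists_conj (F := F) hFK
  have : (Ideal.span {(p : ℤ)}).IsMaximal :=
    PrincipalIdealRing.isMaximal_of_irreducible (Nat.prime_iff_prime_int.1 (Fact.out : p.Prime)).irreducible
  have : (Ideal.span {(p : ℤ)}).IsPrime := Ideal.IsMaximal.isPrime inferInstance
  have : Finite ((Ideal.span {(p : ℤ)}).primesOver (𝓞 K)) :=
    Algebra.QuasiFinite.finite_primesOver _
  have := Fintype.ofFinite ((Ideal.span {(p : ℤ)}).primesOver (𝓞 K))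
  rw [finsum_cI]
  have htot := Ideal.sum_ramification_inertia_eq_finrank (Ideal.span {(p : ℤ)}) (𝓞 K)
  rw [RingOfIntegers.rank, IsTotallyComplex.finrank] at htot
  set w : (Ideal.span {(p : ℤ)}).primesOver (𝓞 K) → ℕ := fun q => q.1.ramificationIdx ℤ * q.1.inertiaDeg ℤ with hw
  have h1 : ∑ q, w q = (∑ q, if IS S ≤ q.1 then 0 else w q) + ∑ q, if IS S ≤ q.1 then w q else 0 := by
    rw [← Finset.sum_add_distrib]
    refine Finset.sum_congr rfl fun q _ => ?_
    split_ifs <;> simp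
  have h2 : (∑ q, if IS S ≤ q.1 then w q else 0) = ∑ q, if IS S ≤ q.1 then 0 else w q := by
    rw [← Equiv.sum_comp (MulAction.toPerm c : Equiv.Perm ((Ideal.span {(p : ℤ)}).primesOver (𝓞 K)))]
    refine Finset.sum_congr rfl fun q _ => ?_
    have e1 : ((MulAction.toPerm c : Equiv.Perm ((Ideal.span {(p : ℤ)}).primesOver (𝓞 K))) q).1 = c • q.1 := rfl
    have e2 : w ((MulAction.toPerm c : Equiv.Perm ((Ideal.span {(p : ℤ)}).primesOver (𝓞 K))) q) = w q := by
      simp only [hw]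
      rw [e1, Ideal.ramificationIdx_smul, Ideal.inertiaDeg_smul]
    rw [e2]
    obtain ⟨σ, hσ⟩ := exists_Pr (pt q) (two_mem_of_over q)
    have e3 : q.1 = Pr σ := hσ
    have h3 := flip_Pr hCM hS c hc σ
    rw [← e3] at h3
    rw [e1]
    by_cases h4 : IS S ≤ q.1
    · rw [if_pos h4, if_neg (fun h5 => (h3.1 h5) h4)]
    · rw [if_neg h4, if_pos (h3.2 h4)]
  rw [h1, h2] at htot
  have h3 : (∑ q, if IS S ≤ q.1 then 0 else w q) = InfinitePlace.nrComplexPlaces K := by omega
  exact h3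

end

end Pool.Agent.Q7.LK
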