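import Pool.Agent.Q7.LK.Main
import Pool.Agent.Q265.LK.Bas2

/-!
# Project LK (helper7): uniqueness of the extension belonging to a tuple
-/

set_option autoImplicit false

namespace Pool.Agent.Q7.LK

open NumberField IsDedekindDomain Filter Topology Finset
open Pool.Agent.Q283.LQ (Sm Box Nest nS)
open Pool.Agent.Q265.LK

theorem mon_zero {p f : ℕ} {F : Type} [Field F] (u : Fin f → F) : mon (p := p) u 0 = 1 := by
  unfold mon
  simp

theorem uniq (hB : S_BAS) (hbase : S_BASE) (p : ℕ) [Fact p.Prime] (hp : p ≠ 2) (F : Type) [Field F] [NumberField F]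
    (ζ : F) (hζ : IsPrimitiveRoot ζ p) : ∃ y0 : ℕ, ∀ y, y0 ≤ y → ∀ (d0 : F), d0 ≠ 0 →
    ∀ (k : ℕ) (z : Fin k → ZMod p) (q : Fin k → HeightOneSpectrum (𝓞 F)) (d d' : F),
      Fits p y d0 z q d → Fits p y d0 z q d' → IsPow p (d / d') := by
  obtain ⟨y0, hy0⟩ := hbase p hp F ζ hζ
  refine ⟨y0, fun y hy d0 hd0 k z q d d' hd hd' => ?_⟩
  obtain ⟨f, u, r, π, g, hb, -⟩ := hy0 y hy
  have hne : d / d' ≠ 0 := div_ne_zero hd.ne hd'.ne
  obtain ⟨c, x, hx⟩ := hb.full (d / d') hne (fun v hv => by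
    rw [vl_div hB v hd.ne hd'.ne, hd.ram v hv, hd'.ram v hv, sub_self])
  have hmne : mon u c ≠ 0 := mon_ne u hb.ue c
  have hx0 : x ≠ 0 := by
    rintro rfl
    rw [zero_pow (Fact.out : p.Prime).ne_zero] at hx
    exact (mul_ne_zero hne hmne) hx
  have hN : Nn p y (mon u c) := by
    refine ⟨hmne, fun v hv => ?_⟩
    have h1 : Lpw p v (d / d') := by
      have := lpw_div hB (hd.loc v hv) (hd'.loc v hv)
      rwa [div_div_div_cancel_right₀ hd0] at this
    have h2 : Lpw p v (d / d' * mon u c) := by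
      rw [hx]
      exact lpw_pow hB v hx0
    have h3 := lpw_div hB h2 h1
    rwa [mul_div_cancel_left₀ _ hne] at h3
  obtain ⟨w, hw, hwu⟩ := hb.cls 1 one_ne_zero
  have h1 := hwu (0, c) (by
    show Nn p y (1 * mon r 0 * mon u c)
    rw [mon_zero, one_mul, one_mul]
    exact hN)
  have h2 := hwu (0, 0) (by
    show Nn p y (1 * mon r 0 * mon u 0)
    rw [mon_zero, mon_zero, one_mul, one_mul]
    exact Nn_one hB y)
  have hc : c = 0 := by
    have := h1.trans h2.symm
    exact congrArg Prod.snd this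
  rw [hc, mon_zero, mul_one] at hx
  exact ⟨x, hx⟩

end Pool.Agent.Q7.LK
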