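import Pool.Agent.Q7.LK.Stm

/-!
# Project LK (helper7): the main theorem from `S_SHARE`, `S_ATL` and `S_CR2`
-/

set_option autoImplicit false

namespace Pool.Agent.Q7.LK

open NumberField IsDedekindDomain Filter Topology Finset
open Pool.Agent.Q283.LQ (Sm Box Nest nS)

theorem nest_mono : ∀ (k : ℕ) (P Q : (Fin k → ℕ) → Prop), (∀ X, P X → Q X) → Nest k P → Nest k Q
  | 0, _, _, h, hP => h _ hP
  | k + 1, P, Q, h, hP => nest_mono k _ _ (fun X hX => by
      filter_upwards [hX] with x hx using h _ hx) hP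

theorem vl_pow {p : ℕ} {F : Type} [Field F] [NumberField F] (v : HeightOneSpectrum (𝓞 F)) (x : F) (hx : x ≠ 0) :
    vl p v (x ^ p) = 0 := by
  unfold vl
  rw [map_pow]
  have hv : v.valuation F x ≠ 0 := (Valuation.ne_zero_iff _).mpr hx
  rw [WithZero.log_pow]
  simp

theorem not_pow {p : ℕ} {F : Type} [Field F] [NumberField F] (v : HeightOneSpectrum (𝓞 F)) {d : F}
    (hd : d ≠ 0) (h : vl p v d ≠ 0) (hp : p ≠ 0) : ¬ IsPow p d := by
  rintro ⟨x, rfl⟩
  refine h (vl_pow v x ?_)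
  rintro rfl
  exact hd (zero_pow hp)

theorem main (hshare : S_SHARE) (hatl : S_ATL) (hcr2 : S_CR2) : S_MAIN := by
  intro p _ hp F _ _ ζ hζ
  obtain ⟨y0, hy0⟩ := hshare p hp F ζ hζ
  refine ⟨y0, fun y hy d0 hd0 ε hε => ?_⟩
  obtain ⟨k0, hk0⟩ := hy0 y hy (AT p) (fun _ => 0) (hatl p hp F ζ hζ) d0 hd0 ε hε
  refine ⟨max k0 1, fun k hk z hz => nest_mono k _ _ (fun X hX => ?_) (hk0 k (le_trans (le_max_left _ _) hk) z hz)⟩
  have hk1 : 1 ≤ k := le_trans (le_max_right _ _) hk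
  obtain ⟨hfin, hpos, hN⟩ := hX
  refine ⟨hfin, hpos, fun s hs => ?_⟩
  rw [finsum_zero, pow_zero, one_mul] at hN
  refine le_trans ?_ hN
  have h4 : {q ∈ (Box y X : Set (Fin k → HeightOneSpectrum (𝓞 F))) | ∃ d, Fits p y d0 z q d ∧
          ∃ (L : Type) (_ : Field L) (_ : NumberField L) (_ : Algebra F L),
            Kum p F L d ∧ Df p L (Ideal.span {(p : 𝓞 L)}) (s + 1)} ⊆
      {q ∈ (Box y X : Set (Fin k → HeightOneSpectrum (𝓞 F))) | ∃ D, Fits p y d0 z q D ∧ Bad p (AT p) D} := by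
    rintro q ⟨hq, d, hd, L, iL1, iL2, iL3, hkum, hdf⟩
    have hvl : vl p (q ⟨0, hk1⟩) d ≠ 0 := by
      rw [hd.ram _ (hq.2 ⟨0, hk1⟩).1, Finset.sum_eq_single ⟨0, hk1⟩]
      · simp [hz]
      · intro b _ hb
        rw [if_neg (fun h => hb (hq.1 h))]
      · intro h
        exact absurd (Finset.mem_univ _) h
    have hnp : ¬ IsPow p d := not_pow _ hd.ne hvl (Fact.out : p.Prime).ne_zero
    refine ⟨hq, d, hd, hcr2 p hp F L ζ d hζ hkum hnp s hs ?_⟩
    rwa [Ideal.map_span, Set.image_singleton, map_natCast]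
  exact_mod_cast Set.ncard_le_ncard h4 (hfin.subset (fun q hq => hq.1))

end Pool.Agent.Q7.LK
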