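import Pool.Agent.Q7.LK.All2
import Pool.Agent.Q7.LK.Stm3
import Pool.Agent.Q193.LK.Sharem
import Pool.Agent.Q193.LK.Lam
import Pool.Agent.Q153.LK.SH2M
import Pool.Agent.Q151.LKM.CR1AM
import Pool.Agent.Q224.LK.CR1BM
import Pool.Agent.Q224.LK.CR2M

/-!
# Project LK, part 3: all parts together
-/

set_option autoImplicit false

namespace Pool.Agent.Q7.LK

theorem t_SH2M : S_SH2M := Pool.Agent.Q153.LK.sh2m t_BAS t_SH1
theorem t_SHAREM : S_SHAREM := Pool.Agent.Q193.LK.sharem t_BASE t_LOC t_SH1 t_SH2M t_EE t_COUNT t_NEST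
theorem t_LAM : S_LAM := Pool.Agent.Q193.LK.lam
theorem t_CR1AM : S_CR1AM := Pool.Agent.Q151.LKM.cr1am
theorem t_CR1BM : S_CR1BM := Pool.Agent.Q224.LK.cr1bm t_LAM
theorem t_CR2M : S_CR2M := Pool.Agent.Q224.LK.cr2m t_CR2LA t_CR2LB t_CR2T t_CR2U

end Pool.Agent.Q7.LK
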