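import Pool.Agent.Q7.LK.Main2
import Pool.Agent.Q7.LK.Sum

/-!
# The `Σ`-Leopoldt conjecture for characters of odd prime order: assembly (helper7)
-/

set_option autoImplicit false

namespace Pool.Agent.Q7.LK

open NumberField IsDedekindDomain Filter Topology Finset
open Pool.Agent.Q283.LQ (Sm Box Nest nS)
open Pool.Agent.W289.SL

theorem kum_galois {p : ℕ} [Fact p.Prime] {F L : Type} [Field F] [NumberField F] [Field L] [NumberField L]
    [Algebra F L] {ζ d : F} (hζ : IsPrimitiveRoot ζ p) (hk : Kum p F L d) (hd : ¬ IsPow p d) : IsGalois F L := by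
  have hp : p.Prime := Fact.out
  obtain ⟨x, hx⟩ := hk.root
  have hirr : Irreducible (Polynomial.X ^ p - Polynomial.C d : Polynomial F) := by
    apply X_pow_sub_C_irreducible_of_prime hp
    intro b hb
    exact hd ⟨b, hb.symm⟩
  have hroot : (Polynomial.aeval x) (Polynomial.X ^ p - Polynomial.C d : Polynomial F) = 0 := by
    simp [hx]
  have hmin : minpoly F x = Polynomial.X ^ p - Polynomial.C d :=
    (minpoly.eq_of_irreducible_of_monic hirr hroot (Polynomial.monic_X_pow_sub_C d hp.ne_zero)).symm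
  have : FiniteDimensional F L := Module.Finite.of_restrictScalars_finite ℚ F L
  have htop : IntermediateField.adjoin F {x} = ⊤ := by
    rw [Field.primitive_element_iff_minpoly_natDegree_eq, hmin, hk.deg]
    exact Polynomial.natDegree_X_pow_sub_C
  have hne : (primitiveRoots p F).Nonempty := ⟨ζ, (mem_primitiveRoots hp.pos).2 hζ⟩
  have hr : FiniteDimensional F L ∧ ∃ a : L, a ^ Module.finrank F L ∈ Set.range (algebraMap F L) ∧
      IntermediateField.adjoin F {a} = ⊤ := ⟨inferInstance, x, ⟨d, by rw [hk.deg, hx]⟩, htop⟩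
  have hspl : Polynomial.IsSplittingField F L (Polynomial.X ^ p - Polynomial.C d) := by
    have := isSplittingField_X_pow_sub_C_of_root_adjoin_eq_top (K := F) (L := L) (a := d)
      (by rw [hk.deg]; exact hne) (by rw [hk.deg]; exact hx) htop
    rwa [hk.deg] at this
  exact IsGalois.of_separable_splitting_field (p := Polynomial.X ^ p - Polynomial.C d) hirr.separable

theorem tot_complex {p : ℕ} [Fact p.Prime] (hp : p ≠ 2) {K : Type} [Field K] [NumberField K] {ζ : K}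
    (hζ : IsPrimitiveRoot ζ p) : IsTotallyComplex K := by
  have h3 : 2 < p := lt_of_le_of_ne (Fact.out : p.Prime).two_le (Ne.symm hp)
  refine ⟨fun v => ?_⟩
  rw [← InfinitePlace.not_isReal_iff_isComplex]
  intro hv
  exact hζ.ne_one (Fact.out : p.Prime).one_lt (by
    have h1 : (v.embedding_of_isReal hv ζ) ^ p = 1 := by rw [← map_pow, hζ.pow_eq_one, map_one]
    have hodd : Odd p := (Fact.out : p.Prime).odd_of_ne_two hp
    have h2 : v.embedding_of_isReal hv ζ = 1 := by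
      have := hodd.strictMono_pow (R := ℝ) |>.injective
      apply this
      simpa using h1
    exact (v.embedding_of_isReal hv).injective (by rw [h2, map_one]))

/-- The share for a quadratic extension `K/F` such that `K` contains `ζ`, and a p-ordinary CM type `S` -/
def S_FIN2 : Prop := ∀ (p : ℕ) [Fact p.Prime], p ≠ 2 → ∀ (F K : Type) [Field F] [NumberField F] [Field K]
  [NumberField K] [Algebra F K], Module.finrank F K = 2 → ∀ ζ : K, IsPrimitiveRoot ζ p → ∃ y0 : ℕ, ∀ y, y0 ≤ y →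
  ∀ S : Set (K →+* ℂ_[p]), IsCMType p F K S → Ordinary S →
  ∀ d0 : K, d0 ≠ 0 → ∀ ε : ℝ, 0 < ε → ∃ k0 : ℕ, ∀ k, k0 ≤ k → ∀ z : Fin k → ZMod p, (∀ i, z i ≠ 0) → Nest k fun X =>
    (Box y X : Set (Fin k → HeightOneSpectrum (𝓞 K))).Finite ∧
    0 < ({q ∈ (Box y X : Set (Fin k → HeightOneSpectrum (𝓞 K))) | ∃ d, Fits p y d0 z q d}.ncard : ℝ) ∧
    (1 - 1 / ((p : ℝ) - 1) - ε) *
        ({q ∈ (Box y X : Set (Fin k → HeightOneSpectrum (𝓞 K))) | ∃ d, Fits p y d0 z q d}.ncard : ℝ) ≤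
      ({q ∈ (Box y X : Set (Fin k → HeightOneSpectrum (𝓞 K))) | (∃ d, Fits p y d0 z q d) ∧
        ∀ d, Fits p y d0 z q d → ∀ (H : Type) [Field H] [NumberField H] [Algebra K H], Kum p K H d →
          ∀ χ : (H ≃ₐ[K] H) →* ℂ_[p]ˣ, χ ≠ 1 → SigmaLeopoldt p K H S χ}.ncard : ℝ)

theorem fin2 (hmain : S_MAIN2) (hA : S_SGA) : S_FIN2 := by
  intro p _ hp F K _ _ _ _ _ hFK ζ hζ
  have htc : IsTotallyComplex K := tot_complex hp hζ
  obtain ⟨y0, hy0⟩ := hmain p hp K ζ hζ
  refine ⟨y0, fun y hy S hCM hS d0 hd0 ε hε => ?_⟩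
  obtain ⟨k0, hk0⟩ := hy0 y hy (IS S) (two_mem_IS S) d0 hd0 ε hε
  refine ⟨max k0 1, fun k hk z hz => nest_mono k _ _ (fun X hX => ?_) (hk0 k (le_trans (le_max_left _ _) hk) z hz)⟩
  have hk1 : 1 ≤ k := le_trans (le_max_right _ _) hk
  obtain ⟨hfin, hpos, hN⟩ := hX
  have hp0 : (p : ℝ) ≠ 0 := by exact_mod_cast (Fact.out : p.Prime).ne_zero
  have hμ : ((p : ℝ) ^ (∑ᶠ v, cI p (IS S) v) * (1 / (p : ℝ)) ^ InfinitePlace.nrComplexPlaces K) = 1 := by
    rw [sum_cI hFK hCM hS, ← mul_pow, mul_one_div_cancel hp0, one_pow]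
  rw [hμ] at hN
  refine ⟨hfin, hpos, ?_⟩
  set T : Set (Fin k → HeightOneSpectrum (𝓞 K)) := {q ∈ (Box y X : Set (Fin k → HeightOneSpectrum (𝓞 K))) | ∃ d, Fits p y d0 z q d} with hT
  set G : Set (Fin k → HeightOneSpectrum (𝓞 K)) := {q ∈ (Box y X : Set (Fin k → HeightOneSpectrum (𝓞 K))) | (∃ d, Fits p y d0 z q d) ∧
      ∀ d, Fits p y d0 z q d → ∀ (H : Type) [Field H] [NumberField H] [Algebra K H], Kum p K H d →
        ∀ χ : (H ≃ₐ[K] H) →* ℂ_[p]ˣ, χ ≠ 1 → SigmaLeopoldt p K H S χ} with hG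
  set B : Set (Fin k → HeightOneSpectrum (𝓞 K)) := {q ∈ (Box y X : Set (Fin k → HeightOneSpectrum (𝓞 K))) | ∃ d, Fits p y d0 z q d ∧
      ∃ (L : Type) (_ : Field L) (_ : NumberField L) (_ : Algebra K L), Kum p K L d ∧ Out1 p K L (IS S)} with hB
  have hcov : T ⊆ G ∪ B := by
    intro q hq
    by_cases hg : q ∈ G
    · exact Or.inl hg
    · right
      rw [hG] at hg
      simp only [Set.mem_ofPred_eq, not_and, not_forall] at hg
      obtain ⟨d, hd, H, i1, i2, i3, hkum, χ, hχ, hns⟩ := hg hq.1 hq.2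
      refine ⟨hq.1, d, hd, H, i1, i2, i3, hkum, ?_⟩
      have hnp := fits_not_pow hq.1 hk1 hz hd
      have hgal := kum_galois hζ hkum hnp
      unfold SigmaLeopoldt at hns
      push Not at hns
      obtain ⟨L, hL, x, hx1, hx2, hx3⟩ := hns
      have hmem : ∀ s : K →+* ℂ_[p], s ∈ S ↔ ∀ a ∈ IS S, ‖s (a : K)‖ < 1 := by
        intro s
        rw [← IS_le_iff hS s]
        exact Iff.rfl
      exact hA p hp K H hgal (IS S) (two_mem_IS S) S hmem L hL χ hχ x hx3 hx1 hx2
  have hGf : G.Finite := hfin.subset fun q hq => hq.1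
  have hBf : B.Finite := hfin.subset fun q hq => hq.1
  have h2 : (T.ncard : ℝ) ≤ G.ncard + B.ncard := by
    exact_mod_cast le_trans (Set.ncard_le_ncard hcov (hGf.union hBf)) (Set.ncard_union_le G B)
  linarith

end Pool.Agent.Q7.LK
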