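import Pool.Agent.Q7.LK.Main
import Pool.Agent.Q7.LK.Stm2

/-!
# Project LK (helper7), part 2: relations at the places dividing an ideal `I`
-/

set_option autoImplicit false

namespace Pool.Agent.Q7.LK

open NumberField IsDedekindDomain Filter Topology Finset
open Pool.Agent.Q283.LQ (Sm Box Nest nS)

/-- `AI` has the properties of `Loc` -/
theorem ail (hatl : S_ATL) (haun : S_AUN) (hauc : S_AUC) (p : ℕ) [Fact p.Prime] (hp : p ≠ 2) (F : Type) [Field F]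
    [NumberField F] (ζ : F) (hζ : IsPrimitiveRoot ζ p) (I : Ideal (𝓞 F)) : Loc p (AI p I) (cI p I) := by
  classical
  have hT := hatl p hp F ζ hζ
  have h0 : ∀ v : HeightOneSpectrum (𝓞 F), ∀ D a : F, AU p v D a → a ≠ 0 := fun v D a h => h.1
  refine ⟨?_, ?_, ?_, ?_, ?_, ?_, ?_⟩
  · intro v D a hv hD h
    by_cases hI : I ≤ v.asIdeal
    · exact hT.ne v D a hv hD (h.1 hI)
    · exact h0 v D a (h.2 hI)
  · intro v D a b hv hD h hb
    exact ⟨fun hI => hT.mul v D a b hv hD (h.1 hI) hb, fun hI => (hauc p hp F v D hD).1 a b (h.2 hI) hb⟩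
  · intro v D n a hv hD hn h
    exact ⟨fun hI => hT.inv v D n a hv hD hn (h.1 hI), fun hI => (hauc p hp F v D hD).2.1 n a hn (h.2 hI)⟩
  · intro v D a hv hD h
    exact ⟨fun hI => hT.clo v D a hv hD (h.1 hI), fun hI => (hauc p hp F v D hD).2.2.1 a (h.2 hI)⟩
  · intro v D a hv hD h n
    exact ⟨fun hI => hT.pow v D a hv hD (h.1 hI) n, fun hI => (hauc p hp F v D hD).2.2.2 a (h.2 hI) n⟩
  · intro v D hv hD B hB hB2
    by_cases hI : I ≤ v.asIdeal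
    · have h1 := hT.num v D hv hD B (fun b hb => (hB b hb).1 hI) hB2
      refine h1.trans (Nat.pow_le_pow_right (Fact.out : p.Prime).pos ?_)
      omega
    · have h1 := haun p hp F ζ hζ v D hD B (fun b hb => (hB b hb).2 hI) hB2
      have h2 : cI p I v = dv p v := by
        unfold cI dv
        rw [if_pos ⟨hv, hI⟩, if_pos hv]
      rw [h2]
      exact h1
  · intro v hv
    unfold cI
    rw [if_neg (fun h => hv h.1)]

/-- the share of the `d` with a relation at the places dividing `I` -/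
def S_MAIN2 : Prop := ∀ (p : ℕ) [Fact p.Prime], p ≠ 2 → ∀ (F : Type) [Field F] [NumberField F] (ζ : F),
  IsPrimitiveRoot ζ p → ∃ y0 : ℕ, ∀ y, y0 ≤ y → ∀ I : Ideal (𝓞 F), (p : 𝓞 F) ∈ I →
  ∀ d0 : F, d0 ≠ 0 → ∀ ε : ℝ, 0 < ε →
  ∃ k0 : ℕ, ∀ k, k0 ≤ k → ∀ z : Fin k → ZMod p, (∀ i, z i ≠ 0) → Nest k fun X =>
    (Box y X : Set (Fin k → HeightOneSpectrum (𝓞 F))).Finite ∧
    0 < ({q ∈ (Box y X : Set (Fin k → HeightOneSpectrum (𝓞 F))) | ∃ d, Fits p y d0 z q d}.ncard : ℝ) ∧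
      ({q ∈ (Box y X : Set (Fin k → HeightOneSpectrum (𝓞 F))) | ∃ d, Fits p y d0 z q d ∧
          ∃ (L : Type) (_ : Field L) (_ : NumberField L) (_ : Algebra F L), Kum p F L d ∧ Out1 p F L I}.ncard : ℝ) ≤
        ((p : ℝ) ^ (∑ᶠ v, cI p I v) * (1 / (p : ℝ)) ^ InfinitePlace.nrComplexPlaces F / (p - 1) + ε) *
          ({q ∈ (Box y X : Set (Fin k → HeightOneSpectrum (𝓞 F))) | ∃ d, Fits p y d0 z q d}.ncard : ℝ)

theorem fits_not_pow {p : ℕ} [Fact p.Prime] {F : Type} [Field F] [NumberField F] {y k : ℕ} {d0 d : F}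
    {z : Fin k → ZMod p} {X : Fin k → ℕ} {q : Fin k → HeightOneSpectrum (𝓞 F)}
    (hq : q ∈ (Box y X : Set (Fin k → HeightOneSpectrum (𝓞 F)))) (hk1 : 1 ≤ k) (hz : ∀ i, z i ≠ 0)
    (hd : Fits p y d0 z q d) : ¬ IsPow p d := by
  have hvl : vl p (q ⟨0, hk1⟩) d ≠ 0 := by
    rw [hd.ram _ (hq.2 ⟨0, hk1⟩).1, Finset.sum_eq_single ⟨0, hk1⟩]
    · simp [hz]
    · intro b _ hb
      rw [if_neg (fun h => hb (hq.1 h))]
    · intro h
      exact absurd (Finset.mem_univ _) h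
  exact not_pow _ hd.ne hvl (Fact.out : p.Prime).ne_zero

theorem main2 (hshare : S_SHARE) (hatl : S_ATL) (haun : S_AUN) (hauc : S_AUC) (hcr2 : S_CR2I) : S_MAIN2 := by
  intro p _ hp F _ _ ζ hζ
  obtain ⟨y0, hy0⟩ := hshare p hp F ζ hζ
  refine ⟨y0, fun y hy I hI d0 hd0 ε hε => ?_⟩
  obtain ⟨k0, hk0⟩ := hy0 y hy (AI p I) (cI p I) (ail hatl haun hauc p hp F ζ hζ I) d0 hd0 ε hε
  refine ⟨max k0 1, fun k hk z hz => nest_mono k _ _ (fun X hX => ?_) (hk0 k (le_trans (le_max_left _ _) hk) z hz)⟩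
  have hk1 : 1 ≤ k := le_trans (le_max_right _ _) hk
  obtain ⟨hfin, hpos, hN⟩ := hX
  refine ⟨hfin, hpos, le_trans ?_ hN⟩
  have h4 : {q ∈ (Box y X : Set (Fin k → HeightOneSpectrum (𝓞 F))) | ∃ d, Fits p y d0 z q d ∧
          ∃ (L : Type) (_ : Field L) (_ : NumberField L) (_ : Algebra F L), Kum p F L d ∧ Out1 p F L I} ⊆
      {q ∈ (Box y X : Set (Fin k → HeightOneSpectrum (𝓞 F))) | ∃ D, Fits p y d0 z q D ∧ Bad p (AI p I) D} := by
    rintro q ⟨hq, d, hd, L, iL1, iL2, iL3, hkum, hout⟩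
    exact ⟨hq, d, hd, hcr2 p hp F L ζ d hζ hkum (fits_not_pow hq hk1 hz hd) I hI hout⟩
  exact_mod_cast Set.ncard_le_ncard h4 (hfin.subset (fun q hq => hq.1))

end Pool.Agent.Q7.LK
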