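import Pool.Agent.Q7.LK.All
import Pool.Agent.Q7.LK.Fin2
import Pool.Agent.Q262.LK.NDG
import Pool.Agent.Q262.LK.NRM
import Pool.Agent.Q14.LK.AUN
import Pool.Agent.Q14.LK.CR2U
import Pool.Agent.Q129.LK.AUC
import Pool.Agent.Q129.LK.CR1B
import Pool.Agent.Q22.LK.Cr2i
import Pool.Agent.Q22.LK.Sga

/-!
# Project LK, part 2: all parts together
-/

set_option autoImplicit false

namespace Pool.Agent.Q7.LK

theorem t_NDG : S_NDG := Pool.Agent.Q262.LK.ndg t_BAS t_BAS1 t_CHEB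
theorem t_NRM : S_NRM := Pool.Agent.Q262.LK.nrm t_BAS
theorem t_AUN : S_AUN := Pool.Agent.Q14.LK.aun t_BAS t_LOCV t_HS2 t_NDG t_NRM
theorem t_AUC : S_AUC := Pool.Agent.Q129.LK.auc t_BAS t_CPL
theorem t_CR1B : S_CR1B := Pool.Agent.Q129.LK.cr1b t_LA
theorem t_CR2U : S_CR2U := Pool.Agent.Q14.LK.cr2u t_BAS t_CPL
theorem t_CR2I : S_CR2I := Pool.Agent.Q22.LK.cr2i t_CR1B t_CR2LA t_CR2LB t_CR2T t_CR2U
theorem t_SGA : S_SGA := Pool.Agent.Q22.LK.sga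
theorem t_MAIN2 : S_MAIN2 := main2 t_SHARE t_ATL t_AUN t_AUC t_CR2I
theorem t_FIN2 : S_FIN2 := fin2 t_MAIN2 t_SGA

end Pool.Agent.Q7.LK
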