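import Pool.Agent.Q7.LK.Main
import Pool.Agent.Q277.LK.Bas
import Pool.Agent.Q277.LK.SU
import Pool.Agent.Q277.LK.COUNT
import Pool.Agent.Q285.LK.CPL
import Pool.Agent.Q285.LK.LOC
import Pool.Agent.Q285.LK.HS1N
import Pool.Agent.Q65.LK.LOCV
import Pool.Agent.Q65.LK.HS1
import Pool.Agent.Q150.LK.HS1A
import Pool.Agent.Q150.LK.CR2LB
import Pool.Agent.Q162.LK.HS2
import Pool.Agent.Q241.LK.REC
import Pool.Agent.Q265.LK.CHEB
import Pool.Agent.Q265.LK.BAS1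
import Pool.Agent.Q265.LK.AA
import Pool.Agent.Q153.LK.BASE
import Pool.Agent.Q153.LK.NEST
import Pool.Agent.Q153.LK.ATL
import Pool.Agent.Q14.LK.SH1
import Pool.Agent.Q14.LK.EE
import Pool.Agent.Q14.LK.Share
import Pool.Agent.Q14.LK.LA
import Pool.Agent.Q14.LK.LEO
import Pool.Agent.Q123.LK.SH2
import Pool.Agent.Q123.LK.CR1A
import Pool.Agent.Q224.LK.CR1
import Pool.Agent.Q224.LK.CR2LA
import Pool.Agent.Q224.LK.CR2T
import Pool.Agent.Q224.LK.CR2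

/-!
# Project LK: all parts together
-/

set_option autoImplicit false

namespace Pool.Agent.Q7.LK

theorem t_BAS : S_BAS := Pool.Agent.Q277.LK.bas
theorem t_CPL : S_CPL := Pool.Agent.Q285.LK.cpl t_BAS
theorem t_LOCV : S_LOCV := Pool.Agent.Q65.LK.locv t_BAS
theorem t_LOC : S_LOC := Pool.Agent.Q285.LK.loc t_BAS t_LOCV
theorem t_SU : S_SU := Pool.Agent.Q277.LK.SU.su
theorem t_HS1A : S_HS1A := Pool.Agent.Q150.LK.hs1a t_BAS
theorem t_HS1N : S_HS1N := Pool.Agent.Q285.LK.hs1n t_BAS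
theorem t_HS1 : S_HS1 := Pool.Agent.Q65.LK.hs1 t_BAS t_HS1A t_HS1N
theorem t_HS2 : S_HS2 := Pool.Agent.Q162.LK.hs2 t_BAS t_HS1
theorem t_REC : S_REC := Pool.Agent.Q241.LK.rec t_BAS t_HS2
theorem t_CHEB : S_CHEB := Pool.Agent.Q265.LK.cheb t_BAS
theorem t_BAS1 : S_BAS1 := Pool.Agent.Q265.LK.bas1 t_BAS t_LOC t_SU t_REC t_CHEB
theorem t_BASE : S_BASE := Pool.Agent.Q153.LK.base t_BAS t_BAS1 t_REC t_CHEB
theorem t_AA : S_AA := Pool.Agent.Q265.LK.aa t_BAS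
theorem t_COUNT : S_COUNT := Pool.Agent.Q277.LK.COUNT.count
theorem t_NEST : S_NEST := Pool.Agent.Q153.LK.nest t_CHEB t_BAS
theorem t_SH1 : S_SH1 := Pool.Agent.Q14.LK.sh1 t_BAS
theorem t_SH2 : S_SH2 := Pool.Agent.Q123.LK.sh2 t_BAS t_SH1
theorem t_EE : S_EE := Pool.Agent.Q14.LK.ee t_AA t_BAS
theorem t_SHARE : S_SHARE := Pool.Agent.Q14.LK.share t_BASE t_LOC t_SH1 t_SH2 t_EE t_COUNT t_NEST
theorem t_ATL : S_ATL := Pool.Agent.Q153.LK.atl t_BAS t_CPL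
theorem t_CR1A : S_CR1A := Pool.Agent.Q123.LK.cr1a
theorem t_LA : S_LA := Pool.Agent.Q14.LK.la
theorem t_CR1 : S_CR1 := Pool.Agent.Q224.LK.cr1 t_CR1A t_LA
theorem t_CR2LA : S_CR2LA := Pool.Agent.Q224.LK.cr2la t_BAS t_CPL
theorem t_CR2LB : S_CR2LB := Pool.Agent.Q150.LK.cr2lb t_BAS t_CPL
theorem t_CR2T : S_CR2T := Pool.Agent.Q224.LK.cr2t t_BAS
theorem t_CR2 : S_CR2 := Pool.Agent.Q224.LK.cr2 t_CR1 t_CR2LA t_CR2LB t_CR2T
theorem t_LEO : S_LEO := Pool.Agent.Q14.LK.leo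
theorem t_MAIN : S_MAIN := main t_SHARE t_ATL t_CR2

end Pool.Agent.Q7.LK
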