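import Pool.Agent.Q283.LQ.Def

/-!
# Project LK (helper7): Kummer families of odd prime degree over number fields containing `μ_p`: definitions

`F` is a number field containing a primitive `p`-th root of unity `ζ`, `p` an odd prime.  The definitions `Sm`, `Box`,
`Nest`, `nS` are those of project LQ (`Pool.Agent.Q283.LQ.Def`).
-/

set_option autoImplicit false

namespace Pool.Agent.Q7.LK

open NumberField IsDedekindDomain Filter Topology
open Pool.Agent.Q283.LQ (Sm Box Nest nS)

section F

variable {F : Type} [Field F] [NumberField F]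

/-- `v` lies above `p` -/
def Dp (p : ℕ) (v : HeightOneSpectrum (𝓞 F)) : Prop := (p : 𝓞 F) ∈ v.asIdeal

/-- the order of `a` at `v` modulo `p` (`0` for `a = 0`) -/
noncomputable def vl (p : ℕ) (v : HeightOneSpectrum (𝓞 F)) (a : F) : ZMod p :=
  -((WithZero.log (v.valuation F a) : ℤ) : ZMod p)

/-- `a` is the `p`-th power of a nonzero element of the completion of `F` at `v`: for suitable `x ∈ F` the number
`a x ^ p` is arbitrarily close to `1` -/
def Lpw (p : ℕ) (v : HeightOneSpectrum (𝓞 F)) (a : F) : Prop :=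
  ∀ n : ℕ, ∃ x : F, v.valuation F (a * x ^ p - 1) < WithZero.exp (-(n : ℤ))

/-- `a` is a nonzero local `p`-th power at all places above the rational primes `≤ y` -/
def Nn (p y : ℕ) (b : F) : Prop := b ≠ 0 ∧ ∀ v : HeightOneSpectrum (𝓞 F), Sm y v → Lpw p v b

/-- `a` is a `p`-th power in `F` -/
def IsPow (p : ℕ) (a : F) : Prop := ∃ x : F, a = x ^ p

/-- `∏ u_l ^ c_l` -/
noncomputable def mon {p f : ℕ} (u : Fin f → F) (c : Fin f → ZMod p) : F := ∏ l, u l ^ (c l).val

/-- the `p`-th power residue symbol of `a` at `v` is `ζ ^ s`: for a suitable `x` the number `b = a x ^ p` is a unit at `v`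
and `b ^ ((N v - 1) / p) ≡ ζ ^ s` modulo `v` -/
def Sy (p : ℕ) (ζ : F) (v : HeightOneSpectrum (𝓞 F)) (a : F) (s : ZMod p) : Prop :=
  ∃ x : F, v.valuation F (a * x ^ p) = 1 ∧
    v.valuation F ((a * x ^ p) ^ ((Ideal.absNorm v.asIdeal - 1) / p) - ζ ^ s.val) < 1

open Classical in
/-- the exponent of the `p`-th power residue symbol of `a` at `v` -/
noncomputable def sy (p : ℕ) (ζ : F) (v : HeightOneSpectrum (𝓞 F)) (a : F) : ZMod p :=
  if h : ∃ s, Sy p ζ v a s then h.choose else 0

/-- for `v` above `p` and `D` a set `A v D` of local classes modulo `p`-th powers, of at most `p ^ (c v + 1)` elements,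
closed under powers and under the multiplication by `D`, and depending only on the local class of `D` -/
structure Loc (p : ℕ) (A : HeightOneSpectrum (𝓞 F) → F → F → Prop) (c : HeightOneSpectrum (𝓞 F) → ℕ) : Prop where
  ne : ∀ v D a, Dp p v → D ≠ 0 → A v D a → a ≠ 0
  mul : ∀ v D a b, Dp p v → D ≠ 0 → A v D a → Lpw p v b → A v D (a * b)
  inv : ∀ v D n a, Dp p v → D ≠ 0 → Lpw p v n → A v D a → A v (D * n) a
  clo : ∀ v D a, Dp p v → D ≠ 0 → A v D a → A v D (a * D)
  pow : ∀ v D a, Dp p v → D ≠ 0 → A v D a → ∀ n : ℕ, A v D (a ^ n)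
  num : ∀ v D, Dp p v → D ≠ 0 → ∀ B : Finset F, (∀ b ∈ B, A v D b) →
    (∀ b ∈ B, ∀ b' ∈ B, b ≠ b' → ¬ Lpw p v (b / b')) → B.card ≤ p ^ (c v + 1)
  zero : ∀ v, ¬ Dp p v → c v = 0

/-- `a` satisfies the local conditions belonging to `D` -/
structure Cond (p : ℕ) (A : HeightOneSpectrum (𝓞 F) → F → F → Prop) (D a : F) : Prop where
  ne : a ≠ 0
  unr : ∀ v : HeightOneSpectrum (𝓞 F), ¬ Dp p v → vl p v D = 0 → vl p v a = 0
  ram : ∀ v : HeightOneSpectrum (𝓞 F), ¬ Dp p v → vl p v D ≠ 0 → ∃ j : ℕ, Lpw p v (a * D ^ j)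
  abv : ∀ v : HeightOneSpectrum (𝓞 F), Dp p v → A v D a

/-- there is a number with the local conditions which is not, up to `p`-th powers, a power of `D` -/
def Bad (p : ℕ) (A : HeightOneSpectrum (𝓞 F) → F → F → Prop) (D : F) : Prop :=
  ∃ a : F, Cond p A D a ∧ ∀ j : ℕ, ¬ IsPow p (a * D ^ j)

/-! ## The ensemble -/

open Classical in
/-- `D` has, outside the primes above the rational primes `≤ y`, the order `z i` modulo `p` at the primes `q i`, an order
divisible by `p` at the others, and it is, at the primes above the rational primes `≤ y`, equal to `D0` up to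
local `p`-th powers -/
structure Fits (p y : ℕ) (D0 : F) {k : ℕ} (z : Fin k → ZMod p) (q : Fin k → HeightOneSpectrum (𝓞 F)) (D : F) :
    Prop where
  ne : D ≠ 0
  ram : ∀ v : HeightOneSpectrum (𝓞 F), ¬ Sm y v → vl p v D = ∑ i, if q i = v then z i else 0
  loc : ∀ v : HeightOneSpectrum (𝓞 F), Sm y v → Lpw p v (D / D0)

end F

/-! ## Leopoldt defects -/

/-- the vector `a` of `p`-adic integers is a relation between the units `ε i`: there are integral vectors `m k`
which tend to `a`, such that the units `∏ ε i ^ m k i` tend `J`-adically to `1` -/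
def Rel (p : ℕ) [Fact p.Prime] (K : Type) [Field K] [NumberField K] (J : Ideal (𝓞 K)) {n : ℕ}
    (ε : Fin n → (𝓞 K)ˣ) (a : Fin n → ℤ_[p]) : Prop :=
  ∃ m : ℕ → Fin n → ℤ, (∀ i, Tendsto (fun k => ((m k i : ℤ) : ℤ_[p])) atTop (𝓝 (a i))) ∧
    ∀ N : ℕ, ∀ᶠ k in atTop, ((∏ i, ε i ^ m k i : (𝓞 K)ˣ) : 𝓞 K) - 1 ∈ J ^ N

/-- the Leopoldt defect of `K` at the places dividing `J` (`J` contains `p`) is at least `t`: there are
multiplicatively independent units of `K` with `t` relations which are linearly independent over the `p`-adic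
integers -/
def Df (p : ℕ) [Fact p.Prime] (K : Type) [Field K] [NumberField K] (J : Ideal (𝓞 K)) (t : ℕ) : Prop :=
  ∃ (n : ℕ) (ε : Fin n → (𝓞 K)ˣ), (∀ c : Fin n → ℤ, ∏ i, ε i ^ c i = 1 → c = 0) ∧
    ∃ a : Fin t → Fin n → ℤ_[p], LinearIndependent ℤ_[p] a ∧ ∀ j, Rel p K J ε (a j)

/-- `L = F(d ^ (1/p))`, of degree `p` -/
structure Kum (p : ℕ) (F L : Type) [Field F] [Field L] [Algebra F L] (d : F) : Prop where
  deg : Module.finrank F L = p
  root : ∃ x : L, x ^ p = algebraMap F L d

section F2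

variable {F : Type} [Field F] [NumberField F]

/-- the local classes above `p` of the units of relative norm `1` which are close to roots of unity: the powers of `D`
if `D` is not a local `p`-th power, otherwise the classes of the roots of unity of `p`-power order -/
def AT (p : ℕ) (v : HeightOneSpectrum (𝓞 F)) (D a : F) : Prop :=
  a ≠ 0 ∧ (¬ Lpw p v D → ∃ j : ℕ, Lpw p v (a * D ^ j)) ∧
    (Lpw p v D → ∃ ξ s : v.adicCompletion F, (∃ m : ℕ, ξ ^ p ^ m = 1) ∧
      (a : v.adicCompletion F) * ξ = s ^ p)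

/-- the local classes above `p` of all units of relative norm `1`: the norms from `F_v(D ^ (1/p))` if `D` is not a local
`p`-th power, otherwise the classes of order divisible by `p` -/
def AU (p : ℕ) (v : HeightOneSpectrum (𝓞 F)) (D a : F) : Prop :=
  a ≠ 0 ∧ (¬ Lpw p v D → ∃ t : AdjoinRoot (Polynomial.X ^ p - Polynomial.C (D : v.adicCompletion F)),
      Algebra.norm (v.adicCompletion F) t = (a : v.adicCompletion F)) ∧
    (Lpw p v D → vl p v a = 0)

/-- the local conditions above `p` for the relations at the places dividing `I` -/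
def AI (p : ℕ) (I : Ideal (𝓞 F)) (v : HeightOneSpectrum (𝓞 F)) (D a : F) : Prop :=
  (I ≤ v.asIdeal → AT p v D a) ∧ (¬ I ≤ v.asIdeal → AU p v D a)

open Classical in
/-- `[F_v : ℚ_p]` if `v` lies above `p` and does not divide `I`, otherwise `0` -/
noncomputable def cI (p : ℕ) (I : Ideal (𝓞 F)) (v : HeightOneSpectrum (𝓞 F)) : ℕ :=
  if Dp p v ∧ ¬ I ≤ v.asIdeal then v.asIdeal.ramificationIdx ℤ * v.asIdeal.inertiaDeg ℤ else 0

end F2

end Pool.Agent.Q7.LK
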