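import Pool.Agent.Q7.LK.Stm2
import Pool.Agent.W289.SL.Emb

/-!
# The ideal of a p-ordinary CM type (helper7)
-/

set_option autoImplicit false

namespace Pool.Agent.Q7.LK

open NumberField IsDedekindDomain Filter Topology Finset
open Pool.Agent.W289.SL

variable {p : ℕ} [Fact p.Prime]

theorem norm_pp : ‖(p : ℂ_[p])‖ < 1 := by
  have h := PadicComplex.norm_extends' (p := p) (p : ℚ_[p])
  have h1 : ((p : ℚ_[p]) : ℂ_[p]) = (p : ℂ_[p]) := by
    exact_mod_cast map_natCast (algebraMap ℚ_[p] ℂ_[p]) p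
  rw [h1] at h
  rw [h]
  have := Padic.norm_p_lt_one (p := p)
  exact_mod_cast this

section

variable {K : Type} [Field K] [NumberField K]

/-- the prime ideal belonging to an embedding `σ` -/
def Pr (σ : K →+* ℂ_[p]) : Ideal (𝓞 K) where
  carrier := {x | ‖σ (x : K)‖ < 1}
  add_mem' := by
    intro a b ha hb
    show ‖σ ((a + b : 𝓞 K) : K)‖ < 1
    have e : σ ((a + b : 𝓞 K) : K) = σ (a : K) + σ (b : K) := by
      rw [← map_add]
      rfl
    rw [e]
    exact lt_of_le_of_lt (IsUltrametricDist.norm_add_le_max _ _) (max_lt ha hb)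
  zero_mem' := by
    show ‖σ ((0 : 𝓞 K) : K)‖ < 1
    simp
  smul_mem' := by
    intro c x hx
    show ‖σ ((c * x : 𝓞 K) : K)‖ < 1
    have e : σ ((c * x : 𝓞 K) : K) = σ (c : K) * σ (x : K) := by
      rw [← map_mul]
      rfl
    rw [e, norm_mul]
    exact lt_of_le_of_lt (mul_le_of_le_one_left (norm_nonneg _) (norm_emb_le σ c)) hx

theorem mem_Pr {σ : K →+* ℂ_[p]} {x : 𝓞 K} : x ∈ Pr σ ↔ ‖σ (x : K)‖ < 1 := Iff.rfl

theorem two_mem_Pr (σ : K →+* ℂ_[p]) : (p : 𝓞 K) ∈ Pr σ := by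
  rw [mem_Pr]
  have e : σ ((p : 𝓞 K) : K) = p := by
    have : ((p : 𝓞 K) : K) = p := map_natCast (algebraMap (𝓞 K) K) p
    rw [this, map_natCast]
  rw [e]
  exact norm_pp

instance Pr_prime (σ : K →+* ℂ_[p]) : (Pr σ).IsPrime where
  ne_top' := by
    intro h
    have h1 : (1 : 𝓞 K) ∈ Pr σ := by rw [h]; trivial
    rw [mem_Pr] at h1
    simp at h1
  mem_or_mem' := by
    intro a b hab
    by_contra hc
    push Not at hc
    rw [mem_Pr, mem_Pr] at hc
    have h1 : ‖σ (a : K)‖ = 1 := le_antisymm (norm_emb_le σ a) (not_lt.1 hc.1)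
    have h2 : ‖σ (b : K)‖ = 1 := le_antisymm (norm_emb_le σ b) (not_lt.1 hc.2)
    have e : σ ((a * b : 𝓞 K) : K) = σ (a : K) * σ (b : K) := by
      rw [← map_mul]
      rfl
    rw [mem_Pr, e, norm_mul, h1, h2] at hab
    norm_num at hab

theorem Pr_ne_bot (σ : K →+* ℂ_[p]) : Pr σ ≠ ⊥ := by
  intro h
  have h1 := two_mem_Pr σ
  rw [h, Ideal.mem_bot] at h1
  exact Nat.cast_ne_zero.2 (Fact.out : p.Prime).ne_zero h1

instance Pr_max (σ : K →+* ℂ_[p]) : (Pr σ).IsMaximal := (Pr_prime σ).isMaximal (Pr_ne_bot σ)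

/-- every prime above `p` belongs to an embedding -/
theorem exists_Pr (v : HeightOneSpectrum (𝓞 K)) (hv : Dp p v) : ∃ σ : K →+* ℂ_[p], v.asIdeal = Pr σ := by
  classical
  by_contra hc
  push Not at hc
  have h1 : ∀ σ : K →+* ℂ_[p], ¬ v.asIdeal ≤ Pr σ := by
    intro σ h
    exact hc σ (v.isMaximal.eq_of_le (Pr_prime σ).ne_top h)
  have h2 : ¬ ((v.asIdeal : Set (𝓞 K)) ⊆ ⋃ σ ∈ ((Finset.univ : Finset (K →+* ℂ_[p])) : Set (K →+* ℂ_[p])), (Pr σ : Set (𝓞 K))) := by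
    by_cases hne : Nonempty (K →+* ℂ_[p])
    · obtain ⟨σ0⟩ := hne
      rw [Ideal.subset_union_prime (s := (Finset.univ : Finset (K →+* ℂ_[p]))) (f := fun σ => Pr σ) σ0 σ0
        (fun σ _ _ _ => Pr_prime σ)]
      rintro ⟨σ, _, h⟩
      exact h1 σ h
    · intro h
      have h3 := h (SetLike.mem_coe.2 v.asIdeal.zero_mem)
      simp only [Set.mem_iUnion] at h3
      obtain ⟨σ, _⟩ := h3
      exact hne ⟨σ⟩
  rw [Set.not_subset] at h2
  obtain ⟨a, ha, hna⟩ := h2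
  have h3 : ∀ σ : K →+* ℂ_[p], ‖σ (a : K)‖ = 1 := by
    intro σ
    refine le_antisymm (norm_emb_le σ a) (not_lt.1 fun h => hna ?_)
    simp only [Set.mem_iUnion]
    exact ⟨σ, by simp, h⟩
  have h4 : ‖((Algebra.norm ℤ a : ℤ) : ℂ_[p])‖ = 1 := by
    have h5 := Algebra.norm_eq_prod_embeddings ℚ ℂ_[p] (a : K)
    have h6 : algebraMap ℚ ℂ_[p] (Algebra.norm ℚ (a : K)) = ((Algebra.norm ℤ a : ℤ) : ℂ_[p]) := by
      rw [← Algebra.coe_norm_int]
      simp
    rw [h6] at h5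
    rw [h5, norm_prod]
    exact Finset.prod_eq_one fun s _ => h3 (s : K →+* ℂ_[p])
  have h7 : ((Algebra.norm ℤ a : ℤ) : 𝓞 K) ∈ v.asIdeal := by
    have h8 := Ideal.absNorm_mem (Ideal.span {a})
    rw [Ideal.absNorm_span_singleton] at h8
    have h9 : ((Ideal.span {a} : Ideal (𝓞 K))) ≤ v.asIdeal := (Ideal.span_singleton_le_iff_mem _).2 ha
    have h10 := h9 h8
    rcases Int.natAbs_eq (Algebra.norm ℤ a) with h | h
    · rw [h, Int.cast_natCast]
      exact h10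
    · rw [h, Int.cast_neg, Int.cast_natCast]
      exact v.asIdeal.neg_mem h10
  have h8 : (p : ℤ) ∣ Algebra.norm ℤ a := by
    by_contra h9
    have h10 : IsCoprime (p : ℤ) (Algebra.norm ℤ a) :=
      ((Nat.prime_iff_prime_int.1 (Fact.out : p.Prime)).coprime_iff_not_dvd).2 h9
    obtain ⟨r, s, hrs⟩ := h10
    apply v.isPrime.ne_top
    rw [Ideal.eq_top_iff_one]
    have h11 : (1 : 𝓞 K) = (r : 𝓞 K) * p + (s : 𝓞 K) * ((Algebra.norm ℤ a : ℤ) : 𝓞 K) := by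
      have := congrArg (fun z : ℤ => (z : 𝓞 K)) hrs
      push_cast at this
      exact this.symm
    rw [h11]
    exact v.asIdeal.add_mem (v.asIdeal.mul_mem_left _ hv) (v.asIdeal.mul_mem_left _ h7)
  obtain ⟨m, hm⟩ := h8
  rw [hm] at h4
  push_cast at h4
  rw [norm_mul] at h4
  have h9 : ‖(m : ℂ_[p])‖ ≤ 1 := by
    have := norm_le_one_of_integral (p := p) (x := (m : ℂ_[p])) (Polynomial.X - Polynomial.C m)
      (Polynomial.monic_X_sub_C m) (by simp)
    exact this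
  have h10 := norm_pp (p := p)
  have h11 : ‖(p : ℂ_[p])‖ * ‖(m : ℂ_[p])‖ < 1 :=
    lt_of_le_of_lt (mul_le_of_le_one_right (norm_nonneg _) h9) h10
  rw [h4] at h11
  exact lt_irrefl _ h11

/-- `S` is a union of sets of embeddings belonging to primes -/
def Ordinary (S : Set (K →+* ℂ_[p])) : Prop :=
  ∀ σ τ : K →+* ℂ_[p], (∀ x : 𝓞 K, ‖σ (x : K)‖ < 1 ↔ ‖τ (x : K)‖ < 1) → (σ ∈ S ↔ τ ∈ S)

open Classical in
/-- the ideal of `S` -/
noncomputable def IS (S : Set (K →+* ℂ_[p])) : Ideal (𝓞 K) :=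
  ((Finset.univ : Finset (K →+* ℂ_[p])).filter (fun σ => σ ∈ S)).inf Pr

theorem two_mem_IS (S : Set (K →+* ℂ_[p])) : (p : 𝓞 K) ∈ IS S := by
  classical
  have h : Ideal.span {(p : 𝓞 K)} ≤ IS S := by
    unfold IS
    refine Finset.le_inf fun σ _ => ?_
    exact (Ideal.span_singleton_le_iff_mem _).2 (two_mem_Pr σ)
  exact h (Ideal.mem_span_singleton_self _)

theorem IS_le_iff {S : Set (K →+* ℂ_[p])} (hS : Ordinary S) (σ : K →+* ℂ_[p]) : IS S ≤ Pr σ ↔ σ ∈ S := by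
  classical
  unfold IS
  constructor
  · intro h
    obtain ⟨τ, hτ, h1⟩ := (Ideal.IsPrime.inf_le' (Pr_prime σ)).1 h
    rw [Finset.mem_filter] at hτ
    have h2 : Pr τ = Pr σ := (Pr_max τ).eq_of_le (Pr_prime σ).ne_top h1
    refine (hS σ τ fun x => ?_).2 hτ.2
    rw [← mem_Pr, ← mem_Pr, h2]
  · intro h
    exact Finset.inf_le (by simpa using h)

end

end Pool.Agent.Q7.LK
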